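import Pool.Agent.Helper99.TT.HConst

/-!
# Project TT: classification
-/

set_option autoImplicit false

namespace Pool.Agent.Helper99.TT

open TopologicalSpace Pool.Agent.Helper44.FT

private theorem norm_eq99 {v : V3} {r : ℝ} (hr : 0 ≤ r) (h : v 0 ^ 2 + v 1 ^ 2 + v 2 ^ 2 = r ^ 2) :
    ‖v‖ = r := by
  rw [EuclideanSpace.norm_eq, Fin.sum_univ_three]
  simp only [Real.norm_eq_abs, sq_abs]
  rw [h, Real.sqrt_sq hr]

private theorem axis99 {l μ σ h : ℝ} (h0 : h ≠ 0) (h1 : l + μ = h) (h2 : l * μ = σ ^ 2) :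
    ∃ x z : ℝ, h * x ^ 2 = μ ∧ h * z ^ 2 = l ∧ h * (x * z) = -σ ∧ x ^ 2 + z ^ 2 = 1 := by
  have e1 : μ / h = (σ ^ 2 + μ ^ 2) / h ^ 2 := by
    rw [div_eq_div_iff h0 (pow_ne_zero 2 h0)]
    rw [← h2, ← h1]; ring
  have e2 : l / h = (σ ^ 2 + l ^ 2) / h ^ 2 := by
    rw [div_eq_div_iff h0 (pow_ne_zero 2 h0)]
    rw [← h2, ← h1]; ring
  have p1 : 0 ≤ μ / h := by rw [e1]; positivity
  have p2 : 0 ≤ l / h := by rw [e2]; positivity
  have s1 := Real.sq_sqrt p1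
  have s2 := Real.sq_sqrt p2
  have s3 : Real.sqrt (μ / h) * Real.sqrt (l / h) = |σ / h| := by
    rw [← Real.sqrt_mul p1, ← Real.sqrt_sq_eq_abs]
    congr 1
    field_simp
    linear_combination h2
  have m1 : h * Real.sqrt (μ / h) ^ 2 = μ := by rw [s1]; field_simp
  have m2 : h * Real.sqrt (l / h) ^ 2 = l := by rw [s2]; field_simp
  have m3 : Real.sqrt (μ / h) ^ 2 + Real.sqrt (l / h) ^ 2 = 1 := by
    rw [s1, s2, ← add_div, add_comm μ l, h1, div_self h0]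
  rcases le_total (σ / h) 0 with h3 | h3
  · refine ⟨Real.sqrt (μ / h), Real.sqrt (l / h), m1, m2, ?_, m3⟩
    rw [s3, abs_of_nonpos h3]
    field_simp
  · refine ⟨Real.sqrt (μ / h), -Real.sqrt (l / h), m1, by rw [neg_sq]; exact m2, ?_, by rw [neg_sq]; exact m3⟩
    rw [mul_neg, s3, abs_of_nonneg h3]
    field_simp

theorem classify {W : Opens (ℝ × ℝ)} {f : ℝ × ℝ → V3} {E F G : ℝ × ℝ → ℝ}
    {L : (ℝ × ℝ → V3) → ℝ × ℝ → V3} (S : Sf (W : Set (ℝ × ℝ)) f E F G L)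
    (hW : IsPreconnected (W : Set (ℝ × ℝ))) (p0 : W) (a0 b0 : ℝ) (c0 : V3)
    (h2 : ∀ p ∈ (W : Set (ℝ × ℝ)), L (L f) p = a0 • L f p + b0 • (f p - c0)) :
    (∀ p ∈ (W : Set (ℝ × ℝ)), L f p = 0) ∨
    (∃ (c : V3) (ρ : ℝ), 0 < ρ ∧ ∀ p ∈ (W : Set (ℝ × ℝ)), ‖f p - c‖ = ρ) ∨
    (∃ (c a : V3) (ρ : ℝ), ‖a‖ = 1 ∧ 0 < ρ ∧
      ∀ p ∈ (W : Set (ℝ × ℝ)), ‖(f p - c) - inner ℝ (f p - c) a • a‖ = ρ) := by
  obtain ⟨A, Ai, hAAi, hAA, hAi⟩ := area_ring S
  set Φ : Fin 3 → Sm W := fun i => cp f S.smooth i with hΦ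
  have hΦv : ∀ i (p : W), (Φ i).1 p = f p i := fun i p => rfl
  have hc : ∀ x : Sm W, dd (1, 0) (dd (0, 1) x) = dd (0, 1) (dd (1, 0) x) := fun x => dd_comm _ _ x
  have tor2 : ∀ x : Sm W, 2 * x = 0 → x = 0 := fun x hx => Sm.tor 2 x (by norm_num) (by exact_mod_cast hx)
  -- `L f`
  have hL1 : ∀ i (p : W), (L f p) i = -(LR (dd (1, 0)) (dd (0, 1)) Φ Ai (Φ i)).1 p := fun i p =>
    comp_lap S S.smooth hAi i p
  have sLf : ContDiffOn ℝ inf (L f) W := by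
    refine contDiffOn_euclidean.2 fun i => ?_
    refine cd_congr (-(LR (dd (1, 0)) (dd (0, 1)) Φ Ai (Φ i))).2 fun q hq => ?_
    rw [ext_of _ hq]
    exact hL1 i ⟨q, hq⟩
  have hcp : ∀ i, cp (L f) sLf i = -(LR (dd (1, 0)) (dd (0, 1)) Φ Ai (Φ i)) := fun i =>
    Sm.ext' fun p => hL1 i p
  have hLL : ∀ i (p : W), (L (L f) p) i =
      (LR (dd (1, 0)) (dd (0, 1)) Φ Ai (LR (dd (1, 0)) (dd (0, 1)) Φ Ai (Φ i))).1 p := by
    intro i p
    rw [comp_lap S sLf hAi i p, hcp, LR_neg]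
    change -(-(LR (dd (1, 0)) (dd (0, 1)) Φ Ai (LR (dd (1, 0)) (dd (0, 1)) Φ Ai (Φ i))).1 p) = _
    rw [neg_neg]
  -- constants
  obtain ⟨a, ha⟩ : ∃ a : Sm W, a = Sm.mk (fun _ => -a0) contDiffOn_const := ⟨_, rfl⟩
  obtain ⟨b, hb⟩ : ∃ b : Sm W, b = Sm.mk (fun _ => b0) contDiffOn_const := ⟨_, rfl⟩
  obtain ⟨c, hcc⟩ : ∃ c : Fin 3 → Sm W, c = fun i => Sm.mk (fun _ => c0 i) contDiffOn_const := ⟨_, rfl⟩
  have hav : ∀ p, a.1 p = -a0 := fun p => by rw [ha]; rfl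
  have hbv : ∀ p, b.1 p = b0 := fun p => by rw [hb]; rfl
  have hcv : ∀ i p, (c i).1 p = c0 i := fun i p => by rw [hcc]; rfl
  have dconst : ∀ (v : ℝ × ℝ) (r : ℝ), dd v (Sm.mk (W := W) (fun _ => r) contDiffOn_const) = 0 := by
    intro v r
    rw [dd_mk]
    refine Sm.ext' fun p => ?_
    rw [Sm.mk_val]
    simp
  have da : ∀ v, dd v a = 0 := fun v => by rw [ha]; exact dconst _ _
  have db : ∀ v, dd v b = 0 := fun v => by rw [hb]; exact dconst _ _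
  have dc : ∀ v i, dd v (c i) = 0 := fun v i => by rw [hcc]; exact dconst _ _
  have h2r : ∀ i, LR (dd (1, 0)) (dd (0, 1)) Φ Ai (LR (dd (1, 0)) (dd (0, 1)) Φ Ai (Φ i)) =
      a * LR (dd (1, 0)) (dd (0, 1)) Φ Ai (Φ i) + b * (Φ i - c i) := by
    intro i
    refine Sm.ext' fun p => ?_
    change _ = a.1 p * (LR (dd (1, 0)) (dd (0, 1)) Φ Ai (Φ i)).1 p + b.1 p * ((Φ i).1 p - (c i).1 p)
    rw [← hLL, h2 p p.2, hav, hbv, hcv, hΦv]
    simp only [PiLp.add_apply, PiLp.smul_apply, PiLp.sub_apply, smul_eq_mul]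
    rw [hL1]
    ring
  -- the coordinate frame
  have hE0 : ∀ p : W, 0 < (dt (fun i => dd (1, 0) (Φ i)) (fun i => dd (1, 0) (Φ i))).1 p := by
    intro p
    have k := S.det_pos p.2
    have k1 : (dt (fun i => dd (1, 0) (Φ i)) (fun i => dd (1, 0) (Φ i))).1 p = E p := by
      rw [dt_val, S.hE, inner_val]
      simp only [hΦ, cp_dd]
    rw [k1]
    have k2 : 0 ≤ E p := by rw [S.hE]; exact real_inner_self_nonneg
    refine lt_of_le_of_ne k2 fun h => ?_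
    rw [← h] at k
    nlinarith [sq_nonneg (F p)]
  obtain ⟨s, hs, hs0⟩ := Sm.sqrt _ hE0
  obtain ⟨si, hsi⟩ := (Sm.unit s fun p => (hs0 p).ne').exists_right_inv
  obtain ⟨t1, t2, e1, e2, τ, ε, hτ, hε, ho, hA⟩ := coord_onb (D1 := dd (1, 0)) (D2 := dd (0, 1)) hAA hAAi hs hsi
  obtain ⟨α, l, σ, κ, μ, hF, hLap⟩ := lap_frame hc tor2 hτ hε ho hA hAAi
  obtain ⟨ν, hν⟩ : ∃ ν, ν = crs τ ε := ⟨_, rfl⟩
  rw [← hν] at hF ho
  have hLf : ∀ i, LR (dd (1, 0)) (dd (0, 1)) Φ Ai (Φ i) = (l + μ) * ν i := fun i => by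
    rw [hLap, hF.lap_f]
  obtain ⟨D1h, D2h⟩ := h_const (-a0) b0 hav hbv hτ hε ho hA hAAi hLf (da _) (da _) (db _) (db _)
    (fun i => dc _ i) (fun i => dc _ i) h2r
  have hTh : dv (dd (1, 0)) (dd (0, 1)) t1 t2 (l + μ) = 0 := by rw [dv_apply, D1h, D2h]; ring
  have hEh : dv (dd (1, 0)) (dd (0, 1)) e1 e2 (l + μ) = 0 := by rw [dv_apply, D1h, D2h]; ring
  have hconst : ∀ p, (l + μ).1 p = (l + μ).1 p0 := fun p => Sm.const hW _ D1h D2h p p0
  -- a function killed by the frame is constant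
  have cst : ∀ x : Sm W, dv (dd (1, 0)) (dd (0, 1)) t1 t2 x = 0 → dv (dd (1, 0)) (dd (0, 1)) e1 e2 x = 0 →
      ∀ p, x.1 p = x.1 p0 := fun x h1 h2 p => by
    obtain ⟨k1, k2⟩ := D_of_TE hA h1 h2
    exact Sm.const hW _ k1 k2 p p0
  obtain ⟨h0, hh0⟩ : ∃ h0 : ℝ, h0 = (l + μ).1 p0 := ⟨_, rfl⟩
  rw [← hh0] at hconst
  have hnn : ∀ p, (ν 0).1 p ^ 2 + (ν 1).1 p ^ 2 + (ν 2).1 p ^ 2 = 1 := by
    intro p
    have k := congrArg (fun x : Sm W => x.1 p) ho.nn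
    rw [Fin.sum_univ_three] at k
    change (ν 0).1 p * (ν 0).1 p + (ν 1).1 p * (ν 1).1 p + (ν 2).1 p * (ν 2).1 p = 1 at k
    linear_combination k
  by_cases hz : h0 = 0
  · left
    intro p hp
    ext i
    rw [hL1 i ⟨p, hp⟩, hLf]
    change -((l + μ).1 ⟨p, hp⟩ * (ν i).1 ⟨p, hp⟩) = 0
    rw [hconst, hz]; ring
  right
  -- the equation
  have hq : ∀ i, b * (Φ i - c i) = (-((l + μ) * (l ^ 2 + 2 * σ ^ 2 + μ ^ 2)) - a * (l + μ)) * ν i := by
    intro i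
    have k := h2r i
    rw [hLf i, hLap, hF.lap_n hTh hEh] at k
    linear_combination -k
  obtain ⟨q, hqd⟩ : ∃ q, q = -((l + μ) * (l ^ 2 + 2 * σ ^ 2 + μ ^ 2)) - a * (l + μ) := ⟨_, rfl⟩
  rw [← hqd] at hq
  by_cases hb0 : b0 = 0
  · have hbz : b = 0 := Sm.ext' fun p => by rw [hbv, hb0]; rfl
    have hqz : q = 0 := (hF.comp (x := 0) (y := 0) (z := q) fun i => by
      have k := hq i
      rw [hbz] at k
      linear_combination -k).2.2
    have hS : l ^ 2 + 2 * σ ^ 2 + μ ^ 2 = -a := by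
      rw [hqz] at hqd
      refine Sm.ext' fun p => ?_
      have k := congrArg (fun x : Sm W => x.1 p) hqd
      change 0 = -((l + μ).1 p * (l ^ 2 + 2 * σ ^ 2 + μ ^ 2).1 p) - a.1 p * (l + μ).1 p at k
      rw [hconst] at k
      change (l ^ 2 + 2 * σ ^ 2 + μ ^ 2).1 p = -a.1 p
      have k2 : h0 * ((l ^ 2 + 2 * σ ^ 2 + μ ^ 2).1 p + a.1 p) = 0 := by linear_combination k
      rcases mul_eq_zero.1 k2 with k3 | k3
      · exact absurd k3 hz
      · linarith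
    have hy : (l - μ) ^ 2 + 4 * σ ^ 2 = -(2 * a) - (l + μ) ^ 2 := by linear_combination 2 * hS
    have Ta : ∀ x1 x2, dv (dd (1, 0)) (dd (0, 1)) x1 x2 (-(2 * a) - (l + μ) ^ 2) = 0 := by
      intro x1 x2
      have n2 : dv (dd (1, 0)) (dd (0, 1)) x1 x2 (2 : Sm W) = 0 := by
        have := (dv (dd (1, 0)) (dd (0, 1)) x1 x2).map_natCast 2
        simpa using this
      rw [map_sub, map_neg, Derivation.leibniz, n2, Derivation.leibniz_pow, dv_apply, dv_apply, da, da,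
        D1h, D2h]
      simp
    have yT : dv (dd (1, 0)) (dd (0, 1)) t1 t2 ((l - μ) ^ 2 + 4 * σ ^ 2) = 0 := by rw [hy]; exact Ta _ _
    have yE : dv (dd (1, 0)) (dd (0, 1)) e1 e2 ((l - μ) ^ 2 + 4 * σ ^ 2) = 0 := by rw [hy]; exact Ta _ _
    have yc := cst _ yT yE
    by_cases hy0 : ((l - μ) ^ 2 + 4 * σ ^ 2).1 p0 = 0
    · left
      have hpt : ∀ p, (l.1 p - μ.1 p) ^ 2 + 4 * σ.1 p ^ 2 = 0 := fun p => by
        have k := yc p
        rw [hy0] at k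
        exact k
      have hσ : σ = 0 := Sm.ext' fun p => by
        have k : σ.1 p ^ 2 = 0 := by nlinarith [hpt p, sq_nonneg (l.1 p - μ.1 p), sq_nonneg (σ.1 p)]
        exact pow_eq_zero_iff (n := 2) (by norm_num) |>.1 k
      have hlμ : l = μ := Sm.ext' fun p => by
        have k : (l.1 p - μ.1 p) ^ 2 = 0 := by nlinarith [hpt p, sq_nonneg (l.1 p - μ.1 p), sq_nonneg (σ.1 p)]
        have k2 := pow_eq_zero_iff (n := 2) (by norm_num) |>.1 k
        linarith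
      have n2 : ∀ x1 x2, dv (dd (1, 0)) (dd (0, 1)) x1 x2 (2 : Sm W) = 0 := fun x1 x2 => by
        have := (dv (dd (1, 0)) (dd (0, 1)) x1 x2).map_natCast 2
        simpa using this
      have hK : ∀ i p, (2 * ν i + (l + μ) * Φ i).1 p = (2 * ν i + (l + μ) * Φ i).1 p0 := fun i => by
        refine cst _ ?_ ?_
        · rw [map_add, Derivation.leibniz, n2, Derivation.leibniz, hTh, hF.Tn, hF.Tf, hσ, hlμ]
          simp only [smul_eq_mul]; ring
        · rw [map_add, Derivation.leibniz, n2, Derivation.leibniz, hEh, hF.En, hF.Ef, hσ, hlμ]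
          simp only [smul_eq_mul]; ring
      refine ⟨WithLp.toLp 2 fun i => (2 * ν i + (l + μ) * Φ i).1 p0 / h0, |2 / h0|,
        abs_pos.2 (div_ne_zero two_ne_zero hz), fun p hp => ?_⟩
      refine norm_eq99 (abs_nonneg _) ?_
      rw [sq_abs]
      have hKi : ∀ i, (f p - WithLp.toLp 2 fun i => (2 * ν i + (l + μ) * Φ i).1 p0 / h0 : V3) i =
          -(2 / h0) * (ν i).1 ⟨p, hp⟩ := by
        intro i
        change f p i - (2 * ν i + (l + μ) * Φ i).1 p0 / h0 = _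
        rw [← hK i ⟨p, hp⟩]
        change f p i - (2 * (ν i).1 ⟨p, hp⟩ + (l + μ).1 ⟨p, hp⟩ * f p i) / h0 = _
        rw [hconst]
        field_simp
        ring
      rw [hKi, hKi, hKi]
      linear_combination (2 / h0) ^ 2 * hnn ⟨p, hp⟩
    · right
      have hyu : IsUnit ((l - μ) ^ 2 + 4 * σ ^ 2) := Sm.unit _ fun p => by rw [yc p]; exact hy0
      obtain ⟨g1, g2, g3, g4, g5, g6, g7⟩ := cmc_cyl hF Sm.tor hTh hEh hyu yT yE
      have hB := cmc_B hF g1 g2 g3 g4 g5 g6 g7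
      have hC := cmc_C hF hTh hEh hB
      have hBc : ∀ i j p, (Bm τ ε l σ μ i j).1 p = (Bm τ ε l σ μ i j).1 p0 := fun i j =>
        cst _ (hB i j).1 (hB i j).2
      have hCc := fun i => cst _ (hC i).1 (hC i).2
      have g7' : l.1 p0 * μ.1 p0 = σ.1 p0 ^ 2 := congrArg (fun x : Sm W => x.1 p0) g7
      obtain ⟨x, z, x1, x2, x3, x4⟩ := axis99 hz hh0.symm g7'
      have htt : (τ 0).1 p0 * (τ 0).1 p0 + (τ 1).1 p0 * (τ 1).1 p0 + (τ 2).1 p0 * (τ 2).1 p0 = 1 := by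
        have k := congrArg (fun x : Sm W => x.1 p0) ho.tt
        rw [Fin.sum_univ_three] at k
        exact k
      have hee : (ε 0).1 p0 * (ε 0).1 p0 + (ε 1).1 p0 * (ε 1).1 p0 + (ε 2).1 p0 * (ε 2).1 p0 = 1 := by
        have k := congrArg (fun x : Sm W => x.1 p0) ho.ee
        rw [Fin.sum_univ_three] at k
        exact k
      have hte : (τ 0).1 p0 * (ε 0).1 p0 + (τ 1).1 p0 * (ε 1).1 p0 + (τ 2).1 p0 * (ε 2).1 p0 = 0 := by
        have k := congrArg (fun x : Sm W => x.1 p0) ho.te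
        rw [Fin.sum_univ_three] at k
        exact k
      obtain ⟨v, hv⟩ : ∃ v : Fin 3 → ℝ, v = fun i => x * (τ i).1 p0 + z * (ε i).1 p0 := ⟨_, rfl⟩
      have hvi : ∀ i, v i = x * (τ i).1 p0 + z * (ε i).1 p0 := fun i => by rw [hv]
      have hvv : v 0 ^ 2 + v 1 ^ 2 + v 2 ^ 2 = 1 := by
        rw [hvi, hvi, hvi]
        linear_combination x ^ 2 * htt + z ^ 2 * hee + 2 * x * z * hte + x4
      have hBv : ∀ i j (p : W), (Bm τ ε l σ μ i j).1 p = h0 * (v i * v j) := by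
        intro i j p
        rw [hBc i j p, hvi, hvi]
        change μ.1 p0 * ((τ i).1 p0 * (τ j).1 p0) -
          σ.1 p0 * ((τ i).1 p0 * (ε j).1 p0 + (ε i).1 p0 * (τ j).1 p0) +
          l.1 p0 * ((ε i).1 p0 * (ε j).1 p0) = _
        linear_combination (-((τ i).1 p0 * (τ j).1 p0)) * x1 - ((ε i).1 p0 * (ε j).1 p0) * x2 -
          ((τ i).1 p0 * (ε j).1 p0 + (ε i).1 p0 * (τ j).1 p0) * x3
      have hvn : ∀ p : W, v 0 * (ν 0).1 p + v 1 * (ν 1).1 p + v 2 * (ν 2).1 p = 0 := by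
        intro p
        have key : ∀ i, h0 * v i * (v 0 * (ν 0).1 p + v 1 * (ν 1).1 p + v 2 * (ν 2).1 p) = 0 := by
          intro i
          have a5 := congrArg (fun x : Sm W => x.1 p) ho.tn
          have a6 := congrArg (fun x : Sm W => x.1 p) ho.en
          rw [Fin.sum_univ_three] at a5 a6
          change (τ 0).1 p * (ν 0).1 p + (τ 1).1 p * (ν 1).1 p + (τ 2).1 p * (ν 2).1 p = 0 at a5
          change (ε 0).1 p * (ν 0).1 p + (ε 1).1 p * (ν 1).1 p + (ε 2).1 p * (ν 2).1 p = 0 at a6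
          have b0 := hBv i 0 p
          have b1 := hBv i 1 p
          have b2 := hBv i 2 p
          change μ.1 p * ((τ i).1 p * (τ 0).1 p) -
            σ.1 p * ((τ i).1 p * (ε 0).1 p + (ε i).1 p * (τ 0).1 p) +
            l.1 p * ((ε i).1 p * (ε 0).1 p) = _ at b0
          change μ.1 p * ((τ i).1 p * (τ 1).1 p) -
            σ.1 p * ((τ i).1 p * (ε 1).1 p + (ε i).1 p * (τ 1).1 p) +
            l.1 p * ((ε i).1 p * (ε 1).1 p) = _ at b1
          change μ.1 p * ((τ i).1 p * (τ 2).1 p) -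
            σ.1 p * ((τ i).1 p * (ε 2).1 p + (ε i).1 p * (τ 2).1 p) +
            l.1 p * ((ε i).1 p * (ε 2).1 p) = _ at b2
          linear_combination (μ.1 p * (τ i).1 p - σ.1 p * (ε i).1 p) * a5 +
            (l.1 p * (ε i).1 p - σ.1 p * (τ i).1 p) * a6 - (ν 0).1 p * b0 - (ν 1).1 p * b1 - (ν 2).1 p * b2
        have k : h0 * (v 0 * (ν 0).1 p + v 1 * (ν 1).1 p + v 2 * (ν 2).1 p) = 0 := by
          linear_combination v 0 * key 0 + v 1 * key 1 + v 2 * key 2 -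
            h0 * (v 0 * (ν 0).1 p + v 1 * (ν 1).1 p + v 2 * (ν 2).1 p) * hvv
        rcases mul_eq_zero.1 k with k | k
        · exact absurd k hz
        · exact k
      obtain ⟨k, hk⟩ : ∃ k : Fin 3 → ℝ, ∀ i (p : W), h0 * f p i + (ν i).1 p -
          h0 * v i * (v 0 * f p 0 + v 1 * f p 1 + v 2 * f p 2) = k i := by
        refine ⟨fun i => ((l + μ) * Φ i + ν i - ∑ j, Bm τ ε l σ μ i j * Φ j).1 p0, fun i p => ?_⟩
        have e := hCc i p
        change _ = ((l + μ) * Φ i + ν i - ∑ j, Bm τ ε l σ μ i j * Φ j).1 p0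
        rw [← e, Fin.sum_univ_three]
        change _ = (l + μ).1 p * f p i + (ν i).1 p - ((Bm τ ε l σ μ i 0).1 p * f p 0 +
          (Bm τ ε l σ μ i 1).1 p * f p 1 + (Bm τ ε l σ μ i 2).1 p * f p 2)
        rw [hconst, hBv, hBv, hBv]
        ring
      have hkv : v 0 * k 0 + v 1 * k 1 + v 2 * k 2 = 0 := by
        rw [← hk 0 p0, ← hk 1 p0, ← hk 2 p0]
        linear_combination hvn p0 - h0 * (v 0 * f p0 0 + v 1 * f p0 1 + v 2 * f p0 2) * hvv
      refine ⟨WithLp.toLp 2 fun i => k i / h0, WithLp.toLp 2 v, |1 / h0|, ?_,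
        abs_pos.2 (div_ne_zero one_ne_zero hz), fun p hp => ?_⟩
      · refine norm_eq99 zero_le_one ?_
        change v 0 ^ 2 + v 1 ^ 2 + v 2 ^ 2 = 1 ^ 2
        rw [hvv]; norm_num
      · refine norm_eq99 (abs_nonneg _) ?_
        rw [sq_abs, inner_val]
        have hKi : ∀ i, ((f p - WithLp.toLp 2 fun i => k i / h0 : V3) -
            ((f p - WithLp.toLp 2 fun i => k i / h0 : V3) 0 * (WithLp.toLp 2 v : V3) 0 +
              (f p - WithLp.toLp 2 fun i => k i / h0 : V3) 1 * (WithLp.toLp 2 v : V3) 1 +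
              (f p - WithLp.toLp 2 fun i => k i / h0 : V3) 2 * (WithLp.toLp 2 v : V3) 2) •
              (WithLp.toLp 2 v : V3)) i = -(1 / h0) * (ν i).1 ⟨p, hp⟩ := by
          intro i
          change (f p i - k i / h0) - ((f p 0 - k 0 / h0) * v 0 + (f p 1 - k 1 / h0) * v 1 +
            (f p 2 - k 2 / h0) * v 2) * v i = _
          have e := hk i ⟨p, hp⟩
          change h0 * f p i + (ν i).1 ⟨p, hp⟩ - h0 * v i * (v 0 * f p 0 + v 1 * f p 1 + v 2 * f p 2) = k i at e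
          field_simp
          linear_combination e + v i * hkv
        rw [hKi, hKi, hKi]
        linear_combination (1 / h0) ^ 2 * hnn ⟨p, hp⟩
  · left
    obtain ⟨k1, k2, k3, k4⟩ := cmc_sph hF (by rw [dv_apply, db, db]; ring) (by rw [dv_apply, db, db]; ring)
      (fun i => by rw [dv_apply, dc, dc]; ring) (fun i => by rw [dv_apply, dc, dc]; ring) hq
    have kq := cst q k1 k2
    have k3' : ∀ p, b0 = -(q.1 p * l.1 p) := fun p => by
      have := congrArg (fun x : Sm W => x.1 p) k3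
      rw [← hbv p]
      exact this
    have hq0 : q.1 p0 ≠ 0 := fun h => hb0 (by rw [k3' p0, h]; ring)
    refine ⟨c0, |q.1 p0 / b0|, abs_pos.2 (div_ne_zero hq0 hb0), fun p hp => ?_⟩
    refine norm_eq99 (abs_nonneg _) ?_
    rw [sq_abs]
    have k5 := congrArg (fun x : Sm W => x.1 ⟨p, hp⟩) k4
    rw [Fin.sum_univ_three] at k5
    change b.1 ⟨p, hp⟩ ^ 2 * (((Φ 0).1 ⟨p, hp⟩ - (c 0).1 ⟨p, hp⟩) ^ 2 + ((Φ 1).1 ⟨p, hp⟩ - (c 1).1 ⟨p, hp⟩) ^ 2 +
      ((Φ 2).1 ⟨p, hp⟩ - (c 2).1 ⟨p, hp⟩) ^ 2) = q.1 ⟨p, hp⟩ ^ 2 at k5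
    rw [hbv, hcv, hcv, hcv, kq] at k5
    change (f p 0 - c0 0) ^ 2 + (f p 1 - c0 1) ^ 2 + (f p 2 - c0 2) ^ 2 = _
    rw [div_pow, eq_div_iff (pow_ne_zero 2 hb0), ← k5]
    change _ = b0 ^ 2 * ((f p 0 - c0 0) ^ 2 + (f p 1 - c0 1) ^ 2 + (f p 2 - c0 2) ^ 2)
    ring

end Pool.Agent.Helper99.TT
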