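import Pool.Agent.Helper99.TT.Surf

/-!
# Project TT: constant mean curvature (algebra)
-/

set_option autoImplicit false

namespace Pool.Agent.Helper99.TT

variable {R : Type*} [CommRing R] {T E : Derivation ℤ R R} {f τ ε ν : Fin 3 → R} {α l σ κ μ : R}

theorem Fr.lap_n (F : Fr T E f τ ε ν α l σ κ μ) (hT : T (l + μ) = 0) (hE : E (l + μ) = 0) (i : Fin 3) :
    Lap T E α κ ((l + μ) * ν i) = -((l + μ) * (l ^ 2 + 2 * σ ^ 2 + μ ^ 2)) * ν i := by
  have hT2 : T μ = -T l := by rw [map_add] at hT; linear_combination hT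
  have hE2 : E μ = -E l := by rw [map_add] at hE; linear_combination hE
  have c1 := F.cod1
  have c2 := F.cod2
  rw [hT2] at c2
  unfold Lap
  rw [Derivation.leibniz T (l + μ) (ν i), Derivation.leibniz E (l + μ) (ν i), hT, hE, F.Tn, F.En]
  simp only [map_add, map_sub, map_neg, Derivation.leibniz, smul_eq_mul, F.Tt, F.Et, F.Te,
      F.Ee, mul_zero, add_zero, hT2, hE2]
  linear_combination (l + μ) * τ i * c2 - (l + μ) * ε i * c1

/-- With `b ≠ 0` the surface is spherical. -/
theorem cmc_sph (F : Fr T E f τ ε ν α l σ κ μ) {b q : R} {c : Fin 3 → R} (Tb : T b = 0) (Eb : E b = 0)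
    (Tc : ∀ i, T (c i) = 0) (Ec : ∀ i, E (c i) = 0) (h : ∀ i, b * (f i - c i) = q * ν i) :
    T q = 0 ∧ E q = 0 ∧ b = -(q * l) ∧ b ^ 2 * ∑ i, (f i - c i) ^ 2 = q ^ 2 := by
  have k1 := F.comp (x := q * l + b) (y := q * σ) (z := -T q) (fun i => by
    have k : T (b * (f i - c i)) = T (q * ν i) := by rw [h i]
    simp only [map_sub, Derivation.leibniz, smul_eq_mul, F.Tn, F.Tf, Tb, Tc] at k
    linear_combination k)
  have k2 := F.comp (x := q * σ) (y := q * μ + b) (z := -E q) (fun i => by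
    have k : E (b * (f i - c i)) = E (q * ν i) := by rw [h i]
    simp only [map_sub, Derivation.leibniz, smul_eq_mul, F.En, F.Ef, Eb, Ec] at k
    linear_combination k)
  refine ⟨by linear_combination -k1.2.2, by linear_combination -k2.2.2, by linear_combination k1.1, ?_⟩
  have e : b ^ 2 * ∑ i, (f i - c i) ^ 2 = q ^ 2 * ∑ i, ν i * ν i := by
    rw [Finset.mul_sum, Finset.mul_sum]
    exact Finset.sum_congr rfl fun i _ => by linear_combination (b * (f i - c i) + q * ν i) * h i
  rw [e, F.nn, mul_one]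

/-- Constant principal curvatures, not umbilic: the derivatives of the second fundamental form. -/
theorem cmc_cyl (F : Fr T E f τ ε ν α l σ κ μ) (tor : ∀ (n : ℕ) (x : R), n ≠ 0 → (n : R) * x = 0 → x = 0)
    (hT : T (l + μ) = 0) (hE : E (l + μ) = 0) (hy : IsUnit ((l - μ) ^ 2 + 4 * σ ^ 2))
    (yT : T ((l - μ) ^ 2 + 4 * σ ^ 2) = 0) (yE : E ((l - μ) ^ 2 + 4 * σ ^ 2) = 0) :
    T σ = -(α * (l - μ)) ∧ T l = 2 * (α * σ) ∧ T μ = -(2 * (α * σ)) ∧
    E σ = -(κ * (l - μ)) ∧ E l = 2 * (κ * σ) ∧ E μ = -(2 * (κ * σ)) ∧ l * μ = σ ^ 2 := by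
  have hT2 : T μ = -T l := by rw [map_add] at hT; linear_combination hT
  have hE2 : E μ = -E l := by rw [map_add] at hE; linear_combination hE
  have m4 : T (4 : R) = 0 := by have := T.map_natCast 4; simpa using this
  have n4 : E (4 : R) = 0 := by have := E.map_natCast 4; simpa using this
  have m2 : T (2 : R) = 0 := by have := T.map_natCast 2; simpa using this
  have n2 : E (2 : R) = 0 := by have := E.map_natCast 2; simpa using this
  have c1 := F.cod1
  have c2 := F.cod2
  rw [hT2] at c2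
  have ya : (l - μ) * T l + 2 * (σ * T σ) = 0 := by
    refine tor 4 _ (by norm_num) ?_
    simp only [map_add, map_sub, Derivation.leibniz, Derivation.leibniz_pow, smul_eq_mul, nsmul_eq_mul,
      m4, hT2] at yT
    push_cast at yT ⊢
    linear_combination yT
  have yb : (l - μ) * E l + 2 * (σ * E σ) = 0 := by
    refine tor 4 _ (by norm_num) ?_
    simp only [map_add, map_sub, Derivation.leibniz, Derivation.leibniz_pow, smul_eq_mul, nsmul_eq_mul,
      n4, hE2] at yE
    push_cast at yE ⊢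
    linear_combination yE
  -- `X = T l - 2 α σ = -(E σ + κ P)`, `Y = T σ + α P = E l - 2 κ σ`
  have x1 : (l - μ) * (T l - 2 * (α * σ)) + 2 * σ * (T σ + α * (l - μ)) = 0 := by
    linear_combination ya
  have x2 : (l - μ) * (T σ + α * (l - μ)) - 2 * σ * (T l - 2 * (α * σ)) = 0 := by
    linear_combination yb + (l - μ) * c1 + 2 * σ * c2
  have X0 : T l - 2 * (α * σ) = 0 := by
    refine (hy.mul_right_eq_zero).1 ?_
    linear_combination (l - μ) * x1 - 2 * σ * x2
  have Y0 : T σ + α * (l - μ) = 0 := by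
    refine (hy.mul_right_eq_zero).1 ?_
    linear_combination 2 * σ * x1 + (l - μ) * x2
  have e1 : T σ = -(α * (l - μ)) := by linear_combination Y0
  have e2 : T l = 2 * (α * σ) := by linear_combination X0
  have e3 : T μ = -(2 * (α * σ)) := by rw [hT2, e2]
  have e4 : E σ = -(κ * (l - μ)) := by linear_combination -X0 - c2
  have e5 : E l = 2 * (κ * σ) := by linear_combination Y0 - c1
  have e6 : E μ = -(2 * (κ * σ)) := by rw [hE2, e5]
  refine ⟨e1, e2, e3, e4, e5, e6, ?_⟩
  have g1 := F.gauss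
  have b1 : σ * (T κ - E α + α ^ 2 + κ ^ 2) = 0 := by
    have k := F.br l
    rw [e2, e5, Derivation.leibniz T, Derivation.leibniz E, m2, n2, Derivation.leibniz T, Derivation.leibniz E,
      e1, e4] at k
    simp only [smul_eq_mul] at k
    refine tor 2 _ (by norm_num) ?_
    push_cast
    linear_combination k
  have b2 : (l - μ) * (T κ - E α + α ^ 2 + κ ^ 2) = 0 := by
    have k := F.br σ
    rw [e1, e4, map_neg, map_neg, Derivation.leibniz T, Derivation.leibniz E, map_sub, map_sub,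
      e2, e3, e5, e6] at k
    simp only [smul_eq_mul] at k
    linear_combination -k
  have k0 : T κ - E α + α ^ 2 + κ ^ 2 = 0 := by
    refine (hy.mul_right_eq_zero).1 ?_
    linear_combination (l - μ) * b2 + 4 * σ * b1
  linear_combination g1 - k0

/-- The matrix of the (constant) axis direction. -/
def Bm (τ ε : Fin 3 → R) (l σ μ : R) (i j : Fin 3) : R :=
  μ * (τ i * τ j) - σ * (τ i * ε j + ε i * τ j) + l * (ε i * ε j)

theorem cmc_B (F : Fr T E f τ ε ν α l σ κ μ) (h1 : T σ = -(α * (l - μ))) (h2 : T l = 2 * (α * σ))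
    (h3 : T μ = -(2 * (α * σ))) (h4 : E σ = -(κ * (l - μ))) (h5 : E l = 2 * (κ * σ))
    (h6 : E μ = -(2 * (κ * σ))) (h7 : l * μ = σ ^ 2) (i j : Fin 3) :
    T (Bm τ ε l σ μ i j) = 0 ∧ E (Bm τ ε l σ μ i j) = 0 := by
  constructor
  · unfold Bm
    simp only [map_add, map_sub, Derivation.leibniz, smul_eq_mul, F.Tt, F.Te, h1, h2, h3]
    linear_combination (ν i * τ j + τ i * ν j) * h7
  · unfold Bm
    simp only [map_add, map_sub, Derivation.leibniz, smul_eq_mul, F.Et, F.Ee, h4, h5, h6]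
    linear_combination (ν i * ε j + ε i * ν j) * h7

theorem Bm_t (F : Fr T E f τ ε ν α l σ κ μ) (i : Fin 3) :
    ∑ j, Bm τ ε l σ μ i j * τ j = μ * τ i - σ * ε i := by
  have a1 := F.tt
  have a4 := F.te
  unfold Bm
  rw [Fin.sum_univ_three] at a1 a4 ⊢
  linear_combination (μ * τ i - σ * ε i) * a1 + (l * ε i - σ * τ i) * a4

theorem Bm_e (F : Fr T E f τ ε ν α l σ κ μ) (i : Fin 3) :
    ∑ j, Bm τ ε l σ μ i j * ε j = l * ε i - σ * τ i := by
  have a2 := F.ee
  have a4 := F.te
  unfold Bm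
  rw [Fin.sum_univ_three] at a2 a4 ⊢
  linear_combination (μ * τ i - σ * ε i) * a4 + (l * ε i - σ * τ i) * a2

/-- The centre line. -/
theorem cmc_C (F : Fr T E f τ ε ν α l σ κ μ) (hT : T (l + μ) = 0) (hE : E (l + μ) = 0)
    (hB : ∀ i j, T (Bm τ ε l σ μ i j) = 0 ∧ E (Bm τ ε l σ μ i j) = 0) (i : Fin 3) :
    T ((l + μ) * f i + ν i - ∑ j, Bm τ ε l σ μ i j * f j) = 0 ∧
    E ((l + μ) * f i + ν i - ∑ j, Bm τ ε l σ μ i j * f j) = 0 := by
  constructor
  · rw [map_sub, map_sum, map_add, Derivation.leibniz T (l + μ), hT, F.Tn, F.Tf]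
    have e : ∑ j, T (Bm τ ε l σ μ i j * f j) = ∑ j, Bm τ ε l σ μ i j * τ j :=
      Finset.sum_congr rfl fun j _ => by
        rw [Derivation.leibniz, (hB i j).1, F.Tf]
        simp only [smul_eq_mul]; ring
    rw [e, Bm_t F]
    simp only [smul_eq_mul]; ring
  · rw [map_sub, map_sum, map_add, Derivation.leibniz E (l + μ), hE, F.En, F.Ef]
    have e : ∑ j, E (Bm τ ε l σ μ i j * f j) = ∑ j, Bm τ ε l σ μ i j * ε j :=
      Finset.sum_congr rfl fun j _ => by
        rw [Derivation.leibniz, (hB i j).2, F.Ef]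
        simp only [smul_eq_mul]; ring
    rw [e, Bm_e F]
    simp only [smul_eq_mul]; ring

end Pool.Agent.Helper99.TT
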