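import Pool.Agent.Helper99.TT.Defs

/-!
# Project TT: consequences of the structure equations

Codazzi, Gauss, and the relations `Rel` from `Δ² f = a Δ f + b (f - c)` in the gradient frame.
-/

set_option autoImplicit false

namespace Pool.Agent.Helper99.TT

variable {R : Type*} [CommRing R] {T E : Derivation ℤ R R} {f τ ε ν : Fin 3 → R} {α l σ κ μ : R}

theorem Fr.comp (F : Fr T E f τ ε ν α l σ κ μ) {x y z : R}
    (h : ∀ i, x * τ i + y * ε i + z * ν i = 0) : x = 0 ∧ y = 0 ∧ z = 0 := by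
  have h0 := h 0
  have h1 := h 1
  have h2 := h 2
  have a1 := F.tt
  have a2 := F.ee
  have a3 := F.nn
  have a4 := F.te
  have a5 := F.tn
  have a6 := F.en
  rw [Fin.sum_univ_three] at a1 a2 a3 a4 a5 a6
  refine ⟨?_, ?_, ?_⟩
  · linear_combination τ 0 * h0 + τ 1 * h1 + τ 2 * h2 - x * a1 - y * a4 - z * a5
  · linear_combination ε 0 * h0 + ε 1 * h1 + ε 2 * h2 - x * a4 - y * a2 - z * a6
  · linear_combination ν 0 * h0 + ν 1 * h1 + ν 2 * h2 - x * a5 - y * a6 - z * a3

theorem Fr.cod1 (F : Fr T E f τ ε ν α l σ κ μ) : T σ + α * (l - μ) = E l - 2 * (κ * σ) := by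
  have h := (F.comp (x := 0) (y := T κ - E α + α ^ 2 + κ ^ 2 + l * μ - σ ^ 2)
    (z := T σ + α * (l - μ) - E l + 2 * (κ * σ)) (fun i => by
      have k := F.br (τ i)
      rw [F.Et, F.Tt] at k
      simp only [map_add, Derivation.leibniz, smul_eq_mul, F.Te, F.Tn, F.Ee, F.En] at k
      linear_combination k)).2.2
  linear_combination h

theorem Fr.gauss (F : Fr T E f τ ε ν α l σ κ μ) :
    T κ - E α + α ^ 2 + κ ^ 2 + l * μ - σ ^ 2 = 0 := by
  exact (F.comp (x := 0) (y := T κ - E α + α ^ 2 + κ ^ 2 + l * μ - σ ^ 2)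
    (z := T σ + α * (l - μ) - E l + 2 * (κ * σ)) (fun i => by
      have k := F.br (τ i)
      rw [F.Et, F.Tt] at k
      simp only [map_add, Derivation.leibniz, smul_eq_mul, F.Te, F.Tn, F.Ee, F.En] at k
      linear_combination k)).2.1

theorem Fr.cod2 (F : Fr T E f τ ε ν α l σ κ μ) : T μ + 2 * (α * σ) = E σ + κ * (l - μ) := by
  have h := (F.comp (x := -(T κ - E α + α ^ 2 + κ ^ 2 + l * μ - σ ^ 2)) (y := 0)
    (z := T μ + 2 * (α * σ) - E σ - κ * (l - μ)) (fun i => by
      have k := F.br (ε i)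
      rw [F.Ee, F.Te] at k
      simp only [map_add, map_neg, Derivation.leibniz, smul_eq_mul, F.Tt, F.Tn, F.Et, F.En] at k
      linear_combination k)).2.2
  linear_combination h

/-- The Laplacian of the frame. -/
def Lap (T E : Derivation ℤ R R) (α κ : R) (x : R) : R := T (T x) + E (E x) + κ * T x - α * E x

theorem Fr.lap_f (F : Fr T E f τ ε ν α l σ κ μ) (i : Fin 3) :
    Lap T E α κ (f i) = (l + μ) * ν i := by
  unfold Lap
  rw [F.Tf, F.Ef, F.Tt, F.Ee]
  ring

/-- The relations of the gradient frame. -/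
theorem Fr.rel (F : Fr T E f τ ε ν α l σ κ μ) {g a b : R} {c : Fin 3 → R}
    (Ta : T a = 0) (Ea : E a = 0) (Tb : T b = 0) (Eb : E b = 0)
    (Tc : ∀ i, T (c i) = 0) (Ec : ∀ i, E (c i) = 0)
    (hT : T (l + μ) = g) (hE : E (l + μ) = 0)
    (h2 : ∀ i, Lap T E α κ (Lap T E α κ (f i)) = a * Lap T E α κ (f i) + b * (f i - c i)) :
    ∃ q, Rel T E α l σ κ μ g q a b := by
  have hE' : E l + E μ = 0 := by rw [← map_add]; exact hE
  have hT' : T l + T μ = g := by rw [← map_add]; exact hT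
  have hEg : E g = α * g := by
    have k := F.br (l + μ)
    rw [hE, hT, map_zero] at k
    linear_combination -k
  have c1 := F.cod1
  have c2 := F.cod2
  have hT2 : T μ = g - T l := by linear_combination hT'
  have hE2 : E μ = - E l := by linear_combination hE'
  obtain ⟨q, hq⟩ : ∃ q, q = T g + κ * g - (l + μ) * (l ^ 2 + 2 * σ ^ 2 + μ ^ 2) - a * (l + μ) :=
    ⟨_, rfl⟩
  have hV : ∀ i, b * (f i - c i) = -(g * (3 * l + μ)) * τ i - 2 * (g * σ) * ε i + q * ν i := by
    intro i
    have k := h2 i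
    rw [F.lap_f i] at k
    unfold Lap at k
    rw [Derivation.leibniz T (l + μ) (ν i), Derivation.leibniz E (l + μ) (ν i), hT, hE, F.Tn, F.En] at k
    simp only [map_add, map_sub, map_neg, Derivation.leibniz, smul_eq_mul, F.Tt, F.Et, F.Te,
      F.Ee, F.Tn, mul_zero, add_zero, hT2, hE2] at k
    rw [hT2] at c2
    rw [hq]
    linear_combination -k + (l + μ) * τ i * c2 - (l + μ) * ε i * c1
  obtain ⟨w, hw⟩ : ∃ w, w = g * (3 * l + μ) := ⟨_, rfl⟩
  obtain ⟨v, hv⟩ : ∃ v, v = 2 * (g * σ) := ⟨_, rfl⟩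
  have hV' : ∀ i, b * (f i - c i) = -(w * τ i) - v * ε i + q * ν i := fun i => by
    rw [hV i, hw, hv]; ring
  have kT := F.comp (x := T w - v * α + q * l + b) (y := T v + w * α + q * σ)
    (z := -(T q) + w * l + v * σ) (fun i => by
      have k : T (b * (f i - c i)) = T (-(w * τ i) - v * ε i + q * ν i) := by rw [hV' i]
      simp only [map_add, map_sub, map_neg, Derivation.leibniz, smul_eq_mul, F.Tt, F.Te, F.Tn, F.Tf,
        Tb, Tc] at k
      linear_combination k)
  have kE := F.comp (x := E w - v * κ + q * σ) (y := E v + w * κ + q * μ + b)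
    (z := -(E q) + w * σ + v * μ) (fun i => by
      have k : E (b * (f i - c i)) = E (-(w * τ i) - v * ε i + q * ν i) := by rw [hV' i]
      simp only [map_add, map_sub, map_neg, Derivation.leibniz, smul_eq_mul, F.Et, F.Ee, F.En, F.Ef,
        Eb, Ec] at k
      linear_combination k)
  obtain ⟨k1, k2, k3⟩ := kT
  obtain ⟨k4, k5, k6⟩ := kE
  refine ⟨q, ⟨F.br _, Ta, Ea, Tb, Eb, hT', hE', hEg, F.cod1, F.cod2, F.gauss, ?_, ?_, ?_, ?_, ?_, ?_, ?_⟩⟩
  · rw [← hw]
    rw [hv] at k1
    linear_combination k1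
  · rw [← hw, ← hv]
    linear_combination k2
  · rw [← hw]
    rw [hv] at k4
    linear_combination k4
  · rw [← hw, ← hv]
    linear_combination k5
  · rw [hv, hw] at k3
    linear_combination -k3
  · rw [hv, hw] at k6
    linear_combination -k6
  · linear_combination -hq

end Pool.Agent.Helper99.TT
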