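import Pool.Agent.Helper99.TT.Defs
import Pool.Agent.Helper99.TT.Frame

/-!
# Project TT: from coordinates to a moving frame
-/

set_option autoImplicit false

namespace Pool.Agent.Helper99.TT

variable {R : Type*} [CommRing R]

/-- Three orthonormal vectors. -/
structure Onb (τ ε ν : Fin 3 → R) : Prop where
  tt : ∑ i, τ i * τ i = 1
  ee : ∑ i, ε i * ε i = 1
  nn : ∑ i, ν i * ν i = 1
  te : ∑ i, τ i * ε i = 0
  tn : ∑ i, τ i * ν i = 0
  en : ∑ i, ε i * ν i = 0

theorem Onb.comp {τ ε ν : Fin 3 → R} (F : Onb τ ε ν) {x y z : R}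
    (h : ∀ i, x * τ i + y * ε i + z * ν i = 0) : x = 0 ∧ y = 0 ∧ z = 0 := by
  have h0 := h 0
  have h1 := h 1
  have h2 := h 2
  have a1 := F.tt
  have a2 := F.ee
  have a3 := F.nn
  have a4 := F.te
  have a5 := F.tn
  have a6 := F.en
  rw [Fin.sum_univ_three] at a1 a2 a3 a4 a5 a6
  refine ⟨?_, ?_, ?_⟩
  · linear_combination τ 0 * h0 + τ 1 * h1 + τ 2 * h2 - x * a1 - y * a4 - z * a5
  · linear_combination ε 0 * h0 + ε 1 * h1 + ε 2 * h2 - x * a4 - y * a2 - z * a6
  · linear_combination ν 0 * h0 + ν 1 * h1 + ν 2 * h2 - x * a5 - y * a6 - z * a3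

theorem Onb.exp {τ ε ν : Fin 3 → R} (F : Onb τ ε ν) (v : Fin 3 → R) (i : Fin 3) :
    v i = (∑ j, v j * τ j) * τ i + (∑ j, v j * ε j) * ε i + (∑ j, v j * ν j) * ν i := by
  have a1 := F.tt
  have a2 := F.ee
  have a3 := F.nn
  have a4 := F.te
  have a5 := F.tn
  have a6 := F.en
  rw [Fin.sum_univ_three] at a1 a2 a3 a4 a5 a6
  have hM : (Matrix.of ![τ, ε, ν]) * (Matrix.of ![τ, ε, ν]).transpose = 1 := by
    ext i j
    rw [Matrix.mul_apply, Fin.sum_univ_three]
    fin_cases i <;> fin_cases j <;> simp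
    · linear_combination a1
    · linear_combination a4
    · linear_combination a5
    · linear_combination a4
    · linear_combination a2
    · linear_combination a6
    · linear_combination a5
    · linear_combination a6
    · linear_combination a3
  have hM2 := mul_eq_one_comm.1 hM
  have key : ∀ j : Fin 3, τ i * τ j + ε i * ε j + ν i * ν j = if i = j then 1 else 0 := by
    intro j
    have k := congrFun (congrFun hM2 i) j
    rw [Matrix.mul_apply, Fin.sum_univ_three] at k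
    simpa [Matrix.one_apply] using k
  have : v i = ∑ j, v j * (τ i * τ j + ε i * ε j + ν i * ν j) := by
    simp only [key]
    simp
  rw [this, Finset.sum_mul, Finset.sum_mul, Finset.sum_mul, ← Finset.sum_add_distrib,
    ← Finset.sum_add_distrib]
  exact Finset.sum_congr rfl fun j _ => by ring

/-- A derivation acts on an orthonormal frame by a skew matrix. -/
theorem Onb.skew {τ ε ν : Fin 3 → R} (F : Onb τ ε ν) (t2 : ∀ x : R, 2 * x = 0 → x = 0)
    (D : Derivation ℤ R R) : ∃ p q r : R, (∀ i, D (τ i) = p * ε i + q * ν i) ∧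
      (∀ i, D (ε i) = -(p * τ i) + r * ν i) ∧ (∀ i, D (ν i) = -(q * τ i) - r * ε i) := by
  have h1 : D 1 = 0 := D.map_one_eq_zero
  have d1 : ∑ j, D (τ j) * τ j = 0 := by
    apply t2
    have k : D (∑ i, τ i * τ i) = 0 := by rw [F.tt, h1]
    rw [map_sum] at k
    rw [← k, Finset.mul_sum]
    exact Finset.sum_congr rfl fun j _ => by
      rw [Derivation.leibniz]; simp only [smul_eq_mul]; ring
  have d2 : ∑ j, D (ε j) * ε j = 0 := by
    apply t2
    have k : D (∑ i, ε i * ε i) = 0 := by rw [F.ee, h1]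
    rw [map_sum] at k
    rw [← k, Finset.mul_sum]
    exact Finset.sum_congr rfl fun j _ => by
      rw [Derivation.leibniz]; simp only [smul_eq_mul]; ring
  have d3 : ∑ j, D (ν j) * ν j = 0 := by
    apply t2
    have k : D (∑ i, ν i * ν i) = 0 := by rw [F.nn, h1]
    rw [map_sum] at k
    rw [← k, Finset.mul_sum]
    exact Finset.sum_congr rfl fun j _ => by
      rw [Derivation.leibniz]; simp only [smul_eq_mul]; ring
  have d4 : ∑ j, D (ε j) * τ j = -∑ j, D (τ j) * ε j := by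
    have k : D (∑ i, τ i * ε i) = 0 := by rw [F.te, map_zero]
    rw [map_sum] at k
    rw [← Finset.sum_neg_distrib, ← sub_eq_zero, ← Finset.sum_sub_distrib, ← k]
    exact Finset.sum_congr rfl fun j _ => by
      rw [Derivation.leibniz]; simp only [smul_eq_mul]; ring
  have d5 : ∑ j, D (ν j) * τ j = -∑ j, D (τ j) * ν j := by
    have k : D (∑ i, τ i * ν i) = 0 := by rw [F.tn, map_zero]
    rw [map_sum] at k
    rw [← Finset.sum_neg_distrib, ← sub_eq_zero, ← Finset.sum_sub_distrib, ← k]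
    exact Finset.sum_congr rfl fun j _ => by
      rw [Derivation.leibniz]; simp only [smul_eq_mul]; ring
  have d6 : ∑ j, D (ν j) * ε j = -∑ j, D (ε j) * ν j := by
    have k : D (∑ i, ε i * ν i) = 0 := by rw [F.en, map_zero]
    rw [map_sum] at k
    rw [← Finset.sum_neg_distrib, ← sub_eq_zero, ← Finset.sum_sub_distrib, ← k]
    exact Finset.sum_congr rfl fun j _ => by
      rw [Derivation.leibniz]; simp only [smul_eq_mul]; ring
  refine ⟨∑ j, D (τ j) * ε j, ∑ j, D (τ j) * ν j, ∑ j, D (ε j) * ν j, fun i => ?_, fun i => ?_,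
    fun i => ?_⟩
  · have := F.exp (fun j => D (τ j)) i
    simp only [d1] at this
    rw [this]; ring
  · have := F.exp (fun j => D (ε j)) i
    simp only [d2, d4] at this
    rw [this]; ring
  · have := F.exp (fun j => D (ν j)) i
    simp only [d3, d5, d6] at this
    rw [this]; ring

/-- The cross product. -/
def crs (τ ε : Fin 3 → R) : Fin 3 → R :=
  ![τ 1 * ε 2 - τ 2 * ε 1, τ 2 * ε 0 - τ 0 * ε 2, τ 0 * ε 1 - τ 1 * ε 0]

theorem onb_crs {τ ε : Fin 3 → R} (h1 : ∑ i, τ i * τ i = 1) (h2 : ∑ i, ε i * ε i = 1)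
    (h3 : ∑ i, τ i * ε i = 0) : Onb τ ε (crs τ ε) := by
  refine ⟨h1, h2, ?_, h3, ?_, ?_⟩
  · rw [Fin.sum_univ_three] at h1 h2 h3 ⊢
    simp only [crs, Matrix.cons_val_zero, Matrix.cons_val_one, Matrix.cons_val]
    linear_combination h1 * (ε 0 * ε 0 + ε 1 * ε 1 + ε 2 * ε 2) + h2 - h3 * (τ 0 * ε 0 + τ 1 * ε 1 + τ 2 * ε 2)
  · rw [Fin.sum_univ_three]
    simp only [crs, Matrix.cons_val_zero, Matrix.cons_val_one, Matrix.cons_val]
    ring
  · rw [Fin.sum_univ_three]
    simp only [crs, Matrix.cons_val_zero, Matrix.cons_val_one, Matrix.cons_val]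
    ring

/-- The derivation `x D1 + y D2`. -/
def dv (D1 D2 : Derivation ℤ R R) (x y : R) : Derivation ℤ R R := x • D1 + y • D2

theorem dv_apply (D1 D2 : Derivation ℤ R R) (x y z : R) :
    dv D1 D2 x y z = x * D1 z + y * D2 z := by
  simp [dv]

/-- From coordinates to a moving frame. -/
theorem fr_of_coord {D1 D2 : Derivation ℤ R R} (hc : ∀ x, D1 (D2 x) = D2 (D1 x))
    (tor2 : ∀ x : R, 2 * x = 0 → x = 0) {f τ ε ν : Fin 3 → R} {t1 t2 e1 e2 A : R}
    (hτ : ∀ i, τ i = t1 * D1 (f i) + t2 * D2 (f i)) (hε : ∀ i, ε i = e1 * D1 (f i) + e2 * D2 (f i))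
    (ho : Onb τ ε ν) (hA : A * (t1 * e2 - t2 * e1) = 1) :
    ∃ α l σ κ μ : R, Fr (dv D1 D2 t1 t2) (dv D1 D2 e1 e2) f τ ε ν α l σ κ μ ∧
      ∀ x, D1 (A * (t1 * dv D1 D2 t1 t2 x + e1 * dv D1 D2 e1 e2 x)) +
        D2 (A * (t2 * dv D1 D2 t1 t2 x + e2 * dv D1 D2 e1 e2 x)) =
        A * Lap (dv D1 D2 t1 t2) (dv D1 D2 e1 e2) α κ x := by
  set T := dv D1 D2 t1 t2 with hT
  set E := dv D1 D2 e1 e2 with hE
  have aT : ∀ x, T x = t1 * D1 x + t2 * D2 x := fun x => dv_apply _ _ _ _ _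
  have aE : ∀ x, E x = e1 * D1 x + e2 * D2 x := fun x => dv_apply _ _ _ _ _
  obtain ⟨α, l, σ, s1, s2, s3⟩ := ho.skew tor2 T
  obtain ⟨κ, σ', μ, r1, r2, r3⟩ := ho.skew tor2 E
  have d1 : ∀ x, D1 x = A * (e2 * T x - t2 * E x) := fun x => by
    rw [aT, aE]; linear_combination (-D1 x) * hA
  have d2 : ∀ x, D2 x = A * (t1 * E x - e1 * T x) := fun x => by
    rw [aT, aE]; linear_combination (-D2 x) * hA
  have Tf : ∀ i, T (f i) = τ i := fun i => by rw [aT, hτ]
  have Ef : ∀ i, E (f i) = ε i := fun i => by rw [aE, hε]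
  obtain ⟨A1, hA1⟩ : ∃ A1, A1 = T e1 - E t1 := ⟨_, rfl⟩
  obtain ⟨A2, hA2⟩ : ∃ A2, A2 = T e2 - E t2 := ⟨_, rfl⟩
  have hbr : ∀ x, T (E x) - E (T x) = A1 * D1 x + A2 * D2 x := by
    intro x
    rw [aE x, aT x, map_add, map_add, Derivation.leibniz T, Derivation.leibniz T, Derivation.leibniz E,
      Derivation.leibniz E, aT (D1 x), aT (D2 x), aE (D1 x), aE (D2 x), hA1, hA2, hc x]
    simp only [smul_eq_mul]
    ring
  obtain ⟨c1, c2, c3⟩ := ho.comp (x := -α - A * (A1 * e2 - A2 * e1)) (y := -κ - A * (-(A1 * t2) + A2 * t1))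
    (z := σ - σ') (fun i => by
      have k := hbr (f i)
      rw [Ef, Tf, s2, r1, d1, d2, Tf, Ef] at k
      linear_combination k)
  have hσ : σ' = σ := by linear_combination -c3
  rw [hσ] at r1 r3
  have hbr2 : ∀ x, T (E x) - E (T x) = -(α * T x) - κ * E x := by
    intro x
    rw [hbr x, d1 x, d2 x]
    linear_combination (-(T x)) * c1 - E x * c2
  refine ⟨α, l, σ, κ, μ, ⟨Tf, Ef, s1, s2, s3, r1, r2, r3, ho.tt, ho.ee, ho.nn, ho.te, ho.tn, ho.en,
    hbr2⟩, ?_⟩
  -- divergences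
  have h1 : T 1 = 0 := T.map_one_eq_zero
  have h1' : E 1 = 0 := E.map_one_eq_zero
  have hTA : T A = -(A ^ 2 * (t1 * T e2 + e2 * T t1 - t2 * T e1 - e1 * T t2)) := by
    have k : T (A * (t1 * e2 - t2 * e1)) = 0 := by rw [hA, h1]
    simp only [map_sub, Derivation.leibniz, smul_eq_mul] at k
    linear_combination A * k - T A * hA
  have hEA : E A = -(A ^ 2 * (t1 * E e2 + e2 * E t1 - t2 * E e1 - e1 * E t2)) := by
    have k : E (A * (t1 * e2 - t2 * e1)) = 0 := by rw [hA, h1']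
    simp only [map_sub, Derivation.leibniz, smul_eq_mul] at k
    linear_combination A * k - E A * hA
  have hdiv1 : D1 (A * t1) + D2 (A * t2) = A * κ := by
    have k1 := aT A
    have k2 := d1 t1
    have k3 := d2 t2
    rw [Derivation.leibniz, Derivation.leibniz]
    simp only [smul_eq_mul]
    rw [hTA] at k1
    rw [k2, k3]
    linear_combination -k1 + A * c2 - A ^ 2 * t2 * hA1 + A ^ 2 * t1 * hA2
  have hdiv2 : D1 (A * e1) + D2 (A * e2) = -(A * α) := by
    have k1 := aE A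
    have k2 := d1 e1
    have k3 := d2 e2
    rw [Derivation.leibniz, Derivation.leibniz]
    simp only [smul_eq_mul]
    rw [hEA] at k1
    rw [k2, k3]
    linear_combination -k1 - A * c1 - A ^ 2 * e2 * hA1 + A ^ 2 * e1 * hA2
  intro x
  have k1 : D1 (A * (t1 * T x + e1 * E x)) = D1 (A * t1) * T x + A * t1 * D1 (T x) + D1 (A * e1) * E x +
      A * e1 * D1 (E x) := by
    have e : A * (t1 * T x + e1 * E x) = (A * t1) * T x + (A * e1) * E x := by ring
    rw [e, map_add, Derivation.leibniz D1 (A * t1), Derivation.leibniz D1 (A * e1)]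
    simp only [smul_eq_mul]
    ring
  have k2 : D2 (A * (t2 * T x + e2 * E x)) = D2 (A * t2) * T x + A * t2 * D2 (T x) + D2 (A * e2) * E x +
      A * e2 * D2 (E x) := by
    have e : A * (t2 * T x + e2 * E x) = (A * t2) * T x + (A * e2) * E x := by ring
    rw [e, map_add, Derivation.leibniz D2 (A * t2), Derivation.leibniz D2 (A * e2)]
    simp only [smul_eq_mul]
    ring
  rw [k1, k2]
  unfold Lap
  rw [aT (T x), aE (E x)]
  linear_combination T x * hdiv1 + E x * hdiv2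

end Pool.Agent.Helper99.TT
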