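import Pool.Agent.Helper99.TT.Ring
import Pool.Agent.Helper99.TT.Coord

/-!
# Project TT: integral curves
-/

set_option autoImplicit false

namespace Pool.Agent.Helper99.TT

open TopologicalSpace Set

theorem curve {W : Opens (ℝ × ℝ)} (t1 t2 : Sm W) (p : W) : ∃ (γ : ℝ → ℝ × ℝ) (ε : ℝ), 0 < ε ∧
    γ 0 = p ∧ (∀ s ∈ Ioo (-ε) ε, γ s ∈ W) ∧ ∀ (u : Sm W), ∀ s ∈ Ioo (-ε) ε,
      HasDerivAt (fun s => ext W u.1 (γ s)) (ext W (dv (dd (1, 0)) (dd (0, 1)) t1 t2 u).1 (γ s)) s := by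
  have hv : ContDiffAt ℝ 1 (fun q => (ext W t1.1 q, ext W t2.1 q)) p :=
    ((t1.2.contDiffAt (W.isOpen.mem_nhds p.2)).prodMk
      (t2.2.contDiffAt (W.isOpen.mem_nhds p.2))).of_le (by
        exact WithTop.coe_le_coe.2 le_top)
  obtain ⟨γ, h0, ε, hε, hγ⟩ :=
    hv.exists_forall_mem_closedBall_exists_eq_forall_mem_Ioo_hasDerivAt₀ 0
  simp only [zero_sub, zero_add] at hγ
  have hc : ContinuousAt γ 0 := (hγ 0 ⟨by linarith, hε⟩).continuousAt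
  have hW : γ ⁻¹' W ∈ nhds (0 : ℝ) := hc.preimage_mem_nhds (by rw [h0]; exact W.isOpen.mem_nhds p.2)
  obtain ⟨δ, hδ, hδ2⟩ := Metric.mem_nhds_iff.1 hW
  refine ⟨γ, min ε δ, lt_min hε hδ, h0, fun s hs => ?_, fun u s hs => ?_⟩
  · apply hδ2
    rw [Metric.mem_ball, dist_zero_right, Real.norm_eq_abs, abs_lt]
    exact ⟨by linarith [hs.1, min_le_right ε δ], lt_of_lt_of_le hs.2 (min_le_right _ _)⟩
  · have hs1 : s ∈ Ioo (-ε) ε := ⟨by linarith [hs.1, min_le_left ε δ], lt_of_lt_of_le hs.2 (min_le_left _ _)⟩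
    have hs2 : γ s ∈ W := by
      apply hδ2
      rw [Metric.mem_ball, dist_zero_right, Real.norm_eq_abs, abs_lt]
      exact ⟨by linarith [hs.1, min_le_right ε δ], lt_of_lt_of_le hs.2 (min_le_right _ _)⟩
    have h1 := (Sm.diffAt u ⟨γ s, hs2⟩).hasFDerivAt.comp_hasDerivAt s (hγ s hs1)
    have e : ((ext W t1.1 (γ s), ext W t2.1 (γ s)) : ℝ × ℝ) =
        t1.1 ⟨γ s, hs2⟩ • ((1 : ℝ), (0 : ℝ)) + t2.1 ⟨γ s, hs2⟩ • ((0 : ℝ), (1 : ℝ)) := by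
      rw [ext_of _ hs2, ext_of _ hs2]
      simp
    have e2 : ext W (dv (dd (1, 0)) (dd (0, 1)) t1 t2 u).1 (γ s) =
        fderiv ℝ (ext W u.1) (γ s) (ext W t1.1 (γ s), ext W t2.1 (γ s)) := by
      rw [ext_of _ hs2, dv_apply, e, map_add, map_smul, map_smul]
      rfl
    rw [e2]
    exact h1

end Pool.Agent.Helper99.TT
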