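import Pool.Agent.Helper44.FT.RealC

/-!
# Project TT: constant mean curvature of finite type surfaces of revolution (from helper44's project)
-/

set_option autoImplicit false

namespace Pool.Agent.Helper99.TT

open MvPolynomial ComplexConjugate Pool.Agent.Helper44.FT

/-- The mean curvature of the data of a finite type surface of revolution has derivative zero. -/
theorem data_h {k : ℕ} {c0 : Fin (k + 1) → ℝ} {I : Set ℝ} {f g f1 g1 κ h : ℝ → ℝ}
    {p q p1 q1 : ℕ → ℝ → ℝ} (D : Data k c0 I f g f1 g1 κ h p q p1 q1) {s : ℝ} (hs : s ∈ I) :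
    HasDerivAt h 0 s := by
  have ha : ∀ s ∈ I, stt c0 (f s) (f1 s) (g1 s) (fun n => p n s) (fun n => q n s) (fun n => p1 n s)
      (fun n => q1 n s) (.a 0) = ⟨0, h s⟩ := by
    intro s hs
    have hp := D.p0 s hs
    have hq := D.q0 s hs
    have hu := D.unit s hs
    change (⟨p ((0 : Fin (k + 1)) : ℕ) s, q ((0 : Fin (k + 1)) : ℕ) s⟩ : ℂ) * conj (⟨f1 s, g1 s⟩ : ℂ) = _
    rw [Fin.val_zero, hp, hq]
    apply Complex.ext
    · simp only [Complex.mul_re, Complex.conj_re, Complex.conj_im]
      ring
    · simp only [Complex.mul_im, Complex.conj_re, Complex.conj_im]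
      linear_combination (h s) * hu
  have h1 := real_deriv D (X (.a 0)) hs
  rw [dv_X, mean_const (real_W D hs) rfl] at h1
  simp only [eval_X] at h1
  have h2 := Complex.imCLM.hasFDerivAt.comp_hasDerivAt s h1
  rw [map_zero] at h2
  refine h2.congr_of_eventuallyEq ?_
  filter_upwards [D.opn.mem_nhds hs] with t ht
  change h t = (stt c0 (f t) (f1 t) (g1 t) (fun n => p n t) (fun n => q n t) (fun n => p1 n t)
      (fun n => q1 n t) (.a 0)).im
  rw [ha t ht]

end Pool.Agent.Helper99.TT
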