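import Mathlib

/-!
# Project TT: definitions for the differential algebra of surfaces of type at most two

`R` is a commutative ring of functions, `T`, `E` derivations (a moving frame), `D1`, `D2` in applications the two partial
derivatives.
-/

set_option autoImplicit false

namespace Pool.Agent.Helper99.TT

/-- Structure equations of an orthonormal frame `τ, ε, ν` along a surface `f` in three space:
`T f = τ`, `E f = ε`, `ν` the normal; `α, κ` connection coefficients; `l, σ, μ` second fundamental form. -/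
structure Fr {R : Type*} [CommRing R] (T E : Derivation ℤ R R) (f τ ε ν : Fin 3 → R)
    (α l σ κ μ : R) : Prop where
  Tf : ∀ i, T (f i) = τ i
  Ef : ∀ i, E (f i) = ε i
  Tt : ∀ i, T (τ i) = α * ε i + l * ν i
  Te : ∀ i, T (ε i) = -(α * τ i) + σ * ν i
  Tn : ∀ i, T (ν i) = -(l * τ i) - σ * ε i
  Et : ∀ i, E (τ i) = κ * ε i + σ * ν i
  Ee : ∀ i, E (ε i) = -(κ * τ i) + μ * ν i
  En : ∀ i, E (ν i) = -(σ * τ i) - μ * ε i
  tt : ∑ i, τ i * τ i = 1
  ee : ∑ i, ε i * ε i = 1
  nn : ∑ i, ν i * ν i = 1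
  te : ∑ i, τ i * ε i = 0
  tn : ∑ i, τ i * ν i = 0
  en : ∑ i, ε i * ν i = 0
  br : ∀ x, T (E x) - E (T x) = -(α * T x) - κ * E x

/-- The relations of a surface with `Δ² f = a Δ f + b (f - c)` in the frame `T = ∇h / |∇h|`, `E`
(`h = l + μ` the mean curvature, `g = |∇h|`, `q` the normal component of `b (f - c)`). -/
structure Rel {R : Type*} [CommRing R] (T E : Derivation ℤ R R)
    (α l σ κ μ g q a b : R) : Prop where
  br : T (E ((l - μ) ^ 2 + 4 * σ ^ 2)) - E (T ((l - μ) ^ 2 + 4 * σ ^ 2)) =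
    -(α * T ((l - μ) ^ 2 + 4 * σ ^ 2)) - κ * E ((l - μ) ^ 2 + 4 * σ ^ 2)
  Ta : T a = 0
  Ea : E a = 0
  Tb : T b = 0
  Eb : E b = 0
  Th : T l + T μ = g
  Eh : E l + E μ = 0
  Eg : E g = α * g
  cod1 : T σ + α * (l - μ) = E l - 2 * (κ * σ)
  cod2 : T μ + 2 * (α * σ) = E σ + κ * (l - μ)
  gauss : T κ - E α + α ^ 2 + κ ^ 2 + l * μ - σ ^ 2 = 0
  Tw : T (g * (3 * l + μ)) = 2 * (g * σ * α) - q * l - b
  Tv : T (2 * (g * σ)) = -(g * (3 * l + μ) * α) - q * σ
  Ew : E (g * (3 * l + μ)) = 2 * (g * σ * κ) - q * σ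
  Ev : E (2 * (g * σ)) = -(g * (3 * l + μ) * κ) - q * μ - b
  Tq : T q = g * (3 * l + μ) * l + 2 * (g * σ ^ 2)
  Eq : E q = g * (3 * l + μ) * σ + 2 * (g * σ * μ)
  Tg : T g + κ * g = (l + μ) * (l ^ 2 + 2 * σ ^ 2 + μ ^ 2) + a * (l + μ) + q

theorem Rel.map {R S : Type*} [CommRing R] [CommRing S] {T E : Derivation ℤ R R}
    {T' E' : Derivation ℤ S S} {α l σ κ μ g q a b : R} (r : Rel T E α l σ κ μ g q a b)
    (ψ : R →+* S) (hT : ∀ x, T' (ψ x) = ψ (T x)) (hE : ∀ x, E' (ψ x) = ψ (E x)) :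
    Rel T' E' (ψ α) (ψ l) (ψ σ) (ψ κ) (ψ μ) (ψ g) (ψ q) (ψ a) (ψ b) := by
  constructor
  · simpa only [map_sub, map_add, map_mul, map_pow, map_neg, map_ofNat, map_zero, ← hT, ← hE] using
      congrArg ψ r.br
  · simpa only [map_zero, ← hT, ← hE] using congrArg ψ r.Ta
  · simpa only [map_zero, ← hT, ← hE] using congrArg ψ r.Ea
  · simpa only [map_zero, ← hT, ← hE] using congrArg ψ r.Tb
  · simpa only [map_zero, ← hT, ← hE] using congrArg ψ r.Eb
  · simpa only [map_sub, map_add, map_mul, map_pow, map_neg, map_ofNat, map_zero, ← hT, ← hE] using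
      congrArg ψ r.Th
  · simpa only [map_sub, map_add, map_mul, map_pow, map_neg, map_ofNat, map_zero, ← hT, ← hE] using
      congrArg ψ r.Eh
  · simpa only [map_sub, map_add, map_mul, map_pow, map_neg, map_ofNat, map_zero, ← hT, ← hE] using
      congrArg ψ r.Eg
  · simpa only [map_sub, map_add, map_mul, map_pow, map_neg, map_ofNat, map_zero, ← hT, ← hE] using
      congrArg ψ r.cod1
  · simpa only [map_sub, map_add, map_mul, map_pow, map_neg, map_ofNat, map_zero, ← hT, ← hE] using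
      congrArg ψ r.cod2
  · simpa only [map_sub, map_add, map_mul, map_pow, map_neg, map_ofNat, map_zero, ← hT, ← hE] using
      congrArg ψ r.gauss
  · simpa only [map_sub, map_add, map_mul, map_pow, map_neg, map_ofNat, map_zero, ← hT, ← hE] using
      congrArg ψ r.Tw
  · simpa only [map_sub, map_add, map_mul, map_pow, map_neg, map_ofNat, map_zero, ← hT, ← hE] using
      congrArg ψ r.Tv
  · simpa only [map_sub, map_add, map_mul, map_pow, map_neg, map_ofNat, map_zero, ← hT, ← hE] using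
      congrArg ψ r.Ew
  · simpa only [map_sub, map_add, map_mul, map_pow, map_neg, map_ofNat, map_zero, ← hT, ← hE] using
      congrArg ψ r.Ev
  · simpa only [map_sub, map_add, map_mul, map_pow, map_neg, map_ofNat, map_zero, ← hT, ← hE] using
      congrArg ψ r.Tq
  · simpa only [map_sub, map_add, map_mul, map_pow, map_neg, map_ofNat, map_zero, ← hT, ← hE] using
      congrArg ψ r.Eq
  · simpa only [map_sub, map_add, map_mul, map_pow, map_neg, map_ofNat, map_zero, ← hT, ← hE] using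
      congrArg ψ r.Tg

end Pool.Agent.Helper99.TT
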