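import Pool.Agent.Helper99.TT.Defs

/-!
# Project TT: the generic case `σ ≠ 0` is impossible (pure algebra)
-/

set_option autoImplicit false

namespace Pool.Agent.Helper99.TT

/-- A polynomial of degree four in `y` with `E`-constant coefficients that vanishes has leading coefficient zero. -/
private theorem poly4_99 {R : Type*} [CommRing R] (E : Derivation ℤ R R) (y e c0 c1 c2 c3 c4 : R)
    (z : ∀ x : R, e * x = 0 → x = 0) (hy : E y = e)
    (h0 : E c0 = 0) (h1 : E c1 = 0) (h2 : E c2 = 0) (h3 : E c3 = 0) (h4 : E c4 = 0)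
    (h : c4 * y ^ 4 + c3 * y ^ 3 + c2 * y ^ 2 + c1 * y + c0 = 0) : 24 * c4 = 0 := by
  have key : ∀ x : R, x = 0 → E x = 0 := fun x hx => by rw [hx]; exact map_zero E
  have n2 : E (2 : R) = 0 := by have := E.map_natCast 2; simpa using this
  have n3 : E (3 : R) = 0 := by have := E.map_natCast 3; simpa using this
  have n4 : E (4 : R) = 0 := by have := E.map_natCast 4; simpa using this
  have n6 : E (6 : R) = 0 := by have := E.map_natCast 6; simpa using this
  have n12 : E (12 : R) = 0 := by have := E.map_natCast 12; simpa using this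
  have n24 : E (24 : R) = 0 := by have := E.map_natCast 24; simpa using this
  have e1 : 4 * c4 * y ^ 3 + 3 * c3 * y ^ 2 + 2 * c2 * y + c1 = 0 := by
    have k := key _ h
    simp only [map_add, Derivation.leibniz, Derivation.leibniz_pow, smul_eq_mul, nsmul_eq_mul, hy,
      h0, h1, h2, h3, h4] at k
    refine z _ ?_
    push_cast at k
    linear_combination k
  have e2 : 12 * c4 * y ^ 2 + 6 * c3 * y + 2 * c2 = 0 := by
    have k := key _ e1
    simp only [map_add, Derivation.leibniz, Derivation.leibniz_pow, smul_eq_mul, nsmul_eq_mul, hy,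
      h1, h2, h3, h4, n2, n3, n4] at k
    refine z _ ?_
    push_cast at k
    linear_combination k
  have e3 : 24 * c4 * y + 6 * c3 = 0 := by
    have k := key _ e2
    simp only [map_add, Derivation.leibniz, Derivation.leibniz_pow, smul_eq_mul, nsmul_eq_mul, hy,
      h2, h3, h4, n2, n6, n12] at k
    refine z _ ?_
    push_cast at k
    linear_combination k
  have k := key _ e3
  simp only [map_add, Derivation.leibniz, smul_eq_mul, hy, h3, h4, n6, n24] at k
  refine z _ ?_
  linear_combination k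

/-- The generic case: all relations, `g`, `σ` invertible, imply `(l + μ)³ = 0`. -/
theorem gen {R : Type*} [CommRing R] {T E : Derivation ℤ R R} {α l σ κ μ g q a b : R}
    (r : Rel T E α l σ κ μ g q a b) (hg : IsUnit g) (hσ : IsUnit σ)
    (tor : ∀ (n : ℕ) (x : R), n ≠ 0 → (n : R) * x = 0 → x = 0) :
    (l + μ) ^ 3 = 0 := by
  have t2 : ∀ x : R, 2 * x = 0 → x = 0 := fun x hx => tor 2 x (by norm_num) (by exact_mod_cast hx)
  have n2 : E (2 : R) = 0 := by have := E.map_natCast 2; simpa using this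
  have n3 : E (3 : R) = 0 := by have := E.map_natCast 3; simpa using this
  have n4 : E (4 : R) = 0 := by have := E.map_natCast 4; simpa using this
  have n5 : E (5 : R) = 0 := by have := E.map_natCast 5; simpa using this
  have n6 : E (6 : R) = 0 := by have := E.map_natCast 6; simpa using this
  have n8 : E (8 : R) = 0 := by have := E.map_natCast 8; simpa using this
  have n10 : E (10 : R) = 0 := by have := E.map_natCast 10; simpa using this
  have n12 : E (12 : R) = 0 := by have := E.map_natCast 12; simpa using this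
  have n20 : E (20 : R) = 0 := by have := E.map_natCast 20; simpa using this
  have n24 : E (24 : R) = 0 := by have := E.map_natCast 24; simpa using this
  have n40 : E (40 : R) = 0 := by have := E.map_natCast 40; simpa using this
  have n60 : E (60 : R) = 0 := by have := E.map_natCast 60; simpa using this
  have n100 : E (100 : R) = 0 := by have := E.map_natCast 100; simpa using this
  have m2 : T (2 : R) = 0 := by have := T.map_natCast 2; simpa using this
  have m3 : T (3 : R) = 0 := by have := T.map_natCast 3; simpa using this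
  have m4 : T (4 : R) = 0 := by have := T.map_natCast 4; simpa using this
  have m6 : T (6 : R) = 0 := by have := T.map_natCast 6; simpa using this
  obtain ⟨d, hd⟩ : ∃ d, d * σ = α * g := by
    obtain ⟨u, rfl⟩ := hσ
    exact ⟨α * g * (↑u⁻¹ : R), by rw [mul_assoc, Units.inv_mul, mul_one]⟩
  have hEμ : E μ = -E l := by linear_combination r.Eh
  have hTl : T l = g - T μ := by linear_combination r.Th
  have hEl : 2 * (g * E l) = 2 * (g * σ * κ) - q * σ - α * g * (3 * l + μ) := by
    have k := r.Ew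
    simp only [map_add, Derivation.leibniz, smul_eq_mul, n3, hEμ, r.Eg] at k
    linear_combination k
  have hEσ : 2 * (g * E σ) = -(g * (3 * l + μ) * κ) - q * μ - b - 2 * (α * g * σ) := by
    have k := r.Ev
    simp only [Derivation.leibniz, smul_eq_mul, n2, r.Eg] at k
    linear_combination k
  obtain ⟨G, hG⟩ : ∃ G, G = (l + μ) * (l ^ 2 + 2 * σ ^ 2 + μ ^ 2) + a * (l + μ) + q := ⟨_, rfl⟩
  have hTg : T g = G - κ * g := by linear_combination r.Tg - hG
  have hTσ : T σ = E l - 2 * (κ * σ) - α * (l - μ) := by linear_combination r.cod1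
  have hκ : 2 * (κ * g) = G - d * (l - μ) := by
    have k := r.Tv
    simp only [Derivation.leibniz, smul_eq_mul, m2, hTg, hTσ] at k
    have k2 : σ * (2 * (G - d * (l - μ) - 2 * (κ * g))) = 0 := by
      linear_combination k - hEl - 2 * (l - μ) * hd
    have k3 := t2 _ ((hσ.mul_right_eq_zero).1 k2)
    linear_combination -k3
  have hTμ : T μ = E σ + κ * (l - μ) - 2 * (α * σ) := by linear_combination r.cod2
  obtain ⟨y, hy0⟩ : ∃ y, y = (l - μ) ^ 2 + 4 * σ ^ 2 := ⟨_, rfl⟩
  obtain ⟨h, hh⟩ : ∃ h, h = l + μ := ⟨_, rfl⟩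
  have hEh : E h = 0 := by rw [hh, map_add]; exact r.Eh
  have hG2 : 2 * G = h ^ 3 + h * y + 2 * (a * h) + 2 * q := by rw [hG, hy0, hh]; ring
  -- the basic relation
  have hA0 : y * d + 2 * h * G + h * q + 3 * g ^ 2 + 2 * b = 0 := by
    have k := r.Tw
    simp only [map_add, Derivation.leibniz, smul_eq_mul, m3, hTg, hTl, hTμ] at k
    rw [hy0, hh]
    linear_combination k + hEσ + (l - μ) * hκ + 4 * σ * hd
  have hA : y * d + h ^ 2 * (h ^ 2 + y) + 2 * (a * h ^ 2) + 3 * (h * q) + 3 * g ^ 2 + 2 * b = 0 := by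
    linear_combination hA0 - h * hG2
  have hEy : E y = 6 * (g * σ) := by
    have k : g * (E y) = g * (6 * (g * σ)) := by
      rw [hy0, hh] at hA0
      rw [hy0]
      simp only [map_add, map_sub, Derivation.leibniz, Derivation.leibniz_pow, smul_eq_mul,
        nsmul_eq_mul, n4, hEμ]
      push_cast
      linear_combination 2 * (l - μ) * hEl + 4 * σ * hEσ - 2 * σ * hA0 - 4 * (l + μ) * σ * hκ +
        2 * ((l - μ) * (3 * l + μ) + 4 * σ ^ 2) * hd
    exact hg.mul_left_cancel k
  have hEq : E q = 3 * h * (g * σ) := by rw [hh]; linear_combination r.Eq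
  -- derivative of `d`
  have hEd : y * E d = -(g * σ) * (15 * h ^ 2 + 12 * d) := by
    have k : E (y * d + h ^ 2 * (h ^ 2 + y) + 2 * (a * h ^ 2) + 3 * (h * q) + 3 * g ^ 2 + 2 * b) = 0 := by
      rw [hA]; exact map_zero E
    simp only [map_add, Derivation.leibniz, Derivation.leibniz_pow, smul_eq_mul, nsmul_eq_mul, n2, n3,
      hEh, hEy, hEq, r.Eg, r.Ea, r.Eb] at k
    push_cast at k
    linear_combination k + 6 * g * hd
  -- derivative of `g² P`
  have hEP : 2 * E (g ^ 2 * (l - μ)) = g * σ * (h ^ 3 + h * y + 2 * (a * h) - 4 * (h * d)) := by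
    simp only [map_sub, Derivation.leibniz, Derivation.leibniz_pow, smul_eq_mul, nsmul_eq_mul, hEμ, r.Eg]
    push_cast
    rw [hh]
    rw [hh] at hG2
    linear_combination 2 * g * hEl + 2 * (g * σ) * hκ -
      g * (4 * (l - μ) - 2 * (3 * l + μ)) * hd + g * σ * hG2
  -- `T y`
  have hTy : 2 * (g * T y) = -(y * (h ^ 3 + h * y + 2 * (a * h) + 4 * q + 4 * (h * d))) -
      2 * (g ^ 2 * (l - μ)) := by
    rw [hh] at hG2 hA0
    rw [hy0] at hG2 hA0 ⊢
    simp only [map_add, map_sub, Derivation.leibniz, Derivation.leibniz_pow, smul_eq_mul,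
        nsmul_eq_mul, m4, hTl, hTμ, hTσ]
    push_cast
    rw [hh]
    linear_combination (-(4 * (l - μ))) * hEσ + 8 * σ * hEl +
      (2 * (l - μ) * (l + 3 * μ) - 8 * σ ^ 2) * hκ + 16 * σ * (l + μ) * hd + 2 * (l - μ) * hA0 -
      ((l - μ) ^ 2 + 4 * σ ^ 2) * hG2
  -- the integrability condition for `y`
  obtain ⟨X, hX⟩ : ∃ X, X = g * T y := ⟨_, rfl⟩
  have hEX : E X = α * X + g * E (T y) := by
    rw [hX, Derivation.leibniz, smul_eq_mul, smul_eq_mul, r.Eg]; ring
  have hTEy : T (E y) = -(3 * (g * (3 * l + μ) * α)) - 3 * (q * σ) := by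
    have k := r.Tv
    rw [hEy]
    have e1 : (6 : R) * (g * σ) = 3 * (2 * (g * σ)) := by ring
    rw [e1, Derivation.leibniz, k, m3]
    simp only [smul_eq_mul]
    ring
  have hbr := r.br
  rw [← hy0, hTEy] at hbr
  have hEX2 : 2 * E X = g * σ * (53 * h ^ 3 - 25 * (h * y) - 14 * (a * h) - 24 * q + 28 * (h * d)) := by
    have k : E (2 * (g * T y)) = E (-(y * (h ^ 3 + h * y + 2 * (a * h) + 4 * q + 4 * (h * d))) -
      2 * (g ^ 2 * (l - μ))) := by rw [hTy]
    rw [← hX, map_sub, map_neg] at k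
    simp only [Derivation.leibniz E 2, n2, smul_eq_mul] at k
    rw [Derivation.leibniz E y] at k
    simp only [map_add, Derivation.leibniz _ h, Derivation.leibniz _ a, Derivation.leibniz _ (4:R), Derivation.leibniz _ (2:R), Derivation.leibniz_pow, smul_eq_mul, nsmul_eq_mul, n2, n4,
      hEh, hEy, hEq, r.Ea] at k
    push_cast at k
    linear_combination k - hEP - 4 * h * hEd
  have hF : g ^ 2 * (16 * (d * (l - μ)) + 50 * h ^ 3 - 28 * (h * y) - 20 * (a * h) - 24 * q + 40 * (h * d)) +
      2 * (d * y) * (h ^ 3 + h * y + 2 * (a * h) + 4 * q + 4 * (h * d)) = 0 := by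
    refine (hσ.mul_right_eq_zero).1 ?_
    linear_combination (-(2 * g ^ 2)) * hbr + 2 * g * hEX - g * hEX2 + 2 * g * α * hX +
      (-(4 * g * T y) + 6 * g ^ 2 * (3 * l + μ)) * hd + 2 * d * σ * hTy + 2 * g ^ 2 * κ * hEy +
      6 * g ^ 2 * σ * hκ + 3 * g ^ 2 * σ * hG2 + 12 * g ^ 2 * d * σ * hh
  -- the `E`-constants
  obtain ⟨Q, hQ⟩ : ∃ Q, Q = 2 * q - h * y := ⟨_, rfl⟩
  obtain ⟨D, hD⟩ : ∃ D, D = y ^ 2 * (4 * d + 5 * h ^ 2) := ⟨_, rfl⟩
  obtain ⟨W, hW⟩ : ∃ W, W = g ^ 2 * (l - μ) := ⟨_, rfl⟩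
  rw [← hW] at hEP
  obtain ⟨C, hC⟩ : ∃ C, C = 24 * W - (12 * h ^ 3 + 4 * (a * h)) * y - h * y ^ 2 -
    2 * (h * y * (4 * d + 5 * h ^ 2)) := ⟨_, rfl⟩
  obtain ⟨M, hM⟩ : ∃ M, M = 4 * h ^ 4 + 8 * (a * h ^ 2) + 6 * (h * Q) + 8 * b := ⟨_, rfl⟩
  have hEQ : E Q = 0 := by
    rw [hQ]
    simp only [map_sub, Derivation.leibniz, smul_eq_mul, n2, hEh, hEy, hEq]
    ring
  have hED : E D = 0 := by
    rw [hD]
    simp only [map_add, Derivation.leibniz, Derivation.leibniz_pow, smul_eq_mul, nsmul_eq_mul, n4, n5,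
      hEh, hEy]
    push_cast
    linear_combination 4 * y * hEd
  have hEC : E C = 0 := by
    rw [hC]
    simp only [map_sub, map_add, Derivation.leibniz, Derivation.leibniz_pow, smul_eq_mul, nsmul_eq_mul,
      n24, n12, n4, n2, n5, hEh, hEy, r.Ea]
    push_cast
    linear_combination 12 * hEP - 8 * h * hEd
  have hEM : E M = 0 := by
    rw [hM]
    simp only [map_add, Derivation.leibniz, Derivation.leibniz_pow, smul_eq_mul, nsmul_eq_mul,
      n4, n8, n6, hEh, hEQ, r.Ea, r.Eb]
    ring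
  have hpoly : (100 * h ^ 3) * y ^ 4 + (40 * (h * M)) * y ^ 3 +
      (-(10 * (h ^ 2 * C)) + 60 * (h * D) + 20 * (a * h * M) + 12 * (M * Q)) * y ^ 2 +
      ((-(100 * h ^ 3) + 40 * (a * h) + 24 * Q) * D) * y + (2 * C - 10 * (h * M)) * D = 0 := by
    rw [hC, hM, hD, hQ]
    rw [hW]
    linear_combination (12 * y ^ 2) * hF -
      4 * y ^ 2 * (50 * h ^ 3 - 28 * h * y - 20 * a * h - 24 * q + 40 * h * d) * hA
  have hz : ∀ x : R, 6 * (g * σ) * x = 0 → x = 0 := by
    intro x hx
    have h1 : ((6 : ℕ) : R) * (g * σ * x) = 0 := by push_cast; linear_combination hx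
    exact ((hg.mul hσ).mul_right_eq_zero).1 (tor 6 _ (by norm_num) h1)
  have h24 := poly4_99 E y (6 * (g * σ)) _ _ _ _ _ hz hEy ?_ ?_ ?_ ?_ ?_ hpoly
  · rw [← hh]
    refine tor 2400 _ (by norm_num) ?_
    push_cast
    linear_combination h24
  · simp only [map_sub, Derivation.leibniz, smul_eq_mul, n2, n10, hEh, hEC, hEM, hED]
    ring
  · simp only [map_add, map_neg, Derivation.leibniz, Derivation.leibniz_pow, smul_eq_mul,
      nsmul_eq_mul, n100, n40, n24, hEh, hEQ, hED, r.Ea]
    ring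
  · simp only [map_add, map_neg, Derivation.leibniz, Derivation.leibniz_pow, smul_eq_mul,
      nsmul_eq_mul, n10, n60, n20, n12, hEh, hEQ, hED, hEC, hEM, r.Ea]
    ring
  · simp only [Derivation.leibniz, smul_eq_mul, n40, hEh, hEM]
    ring
  · simp only [Derivation.leibniz, Derivation.leibniz_pow, smul_eq_mul, nsmul_eq_mul, n100, hEh]
    ring

end Pool.Agent.Helper99.TT
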