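import Pool.Agent.Helper99.TT.Coord

/-!
# Project TT: surfaces over a differential ring: the Laplacian in moving frames, gradient frame
-/

set_option autoImplicit false

namespace Pool.Agent.Helper99.TT

variable {R : Type*} [CommRing R]

/-- Scalar product. -/
def dt (u v : Fin 3 → R) : R := ∑ i, u i * v i

/-- The Laplace-Beltrami operator (analyst's sign) with `Ai = 1 / sqrt (E G - F ^ 2)`. -/
def LR (D1 D2 : Derivation ℤ R R) (f : Fin 3 → R) (Ai x : R) : R :=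
  Ai * (D1 (Ai * (dt (fun i => D2 (f i)) (fun i => D2 (f i)) * D1 x -
      dt (fun i => D1 (f i)) (fun i => D2 (f i)) * D2 x)) +
    D2 (Ai * (dt (fun i => D1 (f i)) (fun i => D1 (f i)) * D2 x -
      dt (fun i => D1 (f i)) (fun i => D2 (f i)) * D1 x)))

theorem lap_frame {D1 D2 : Derivation ℤ R R} (hc : ∀ x, D1 (D2 x) = D2 (D1 x))
    (tor2 : ∀ x : R, 2 * x = 0 → x = 0) {f τ ε ν : Fin 3 → R} {t1 t2 e1 e2 A Ai : R}
    (hτ : ∀ i, τ i = t1 * D1 (f i) + t2 * D2 (f i)) (hε : ∀ i, ε i = e1 * D1 (f i) + e2 * D2 (f i))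
    (ho : Onb τ ε ν) (hA : A * (t1 * e2 - t2 * e1) = 1) (hAi : A * Ai = 1) :
    ∃ α l σ κ μ : R, Fr (dv D1 D2 t1 t2) (dv D1 D2 e1 e2) f τ ε ν α l σ κ μ ∧
      ∀ x, LR D1 D2 f Ai x = Lap (dv D1 D2 t1 t2) (dv D1 D2 e1 e2) α κ x := by
  obtain ⟨α, l, σ, κ, μ, hF, hL⟩ := fr_of_coord hc tor2 hτ hε ho hA
  refine ⟨α, l, σ, κ, μ, hF, fun x => ?_⟩
  have d1 : ∀ i, D1 (f i) = A * (e2 * τ i - t2 * ε i) := fun i => by
    rw [hτ, hε]; linear_combination (-D1 (f i)) * hA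
  have d2 : ∀ i, D2 (f i) = A * (t1 * ε i - e1 * τ i) := fun i => by
    rw [hτ, hε]; linear_combination (-D2 (f i)) * hA
  have a1 := ho.tt
  have a2 := ho.ee
  have a4 := ho.te
  rw [Fin.sum_univ_three] at a1 a2 a4
  have hE : dt (fun i => D1 (f i)) (fun i => D1 (f i)) = A ^ 2 * (e2 ^ 2 + t2 ^ 2) := by
    unfold dt
    simp only [d1]
    rw [Fin.sum_univ_three]
    linear_combination A ^ 2 * e2 ^ 2 * a1 + A ^ 2 * t2 ^ 2 * a2 - 2 * A ^ 2 * e2 * t2 * a4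
  have hFF : dt (fun i => D1 (f i)) (fun i => D2 (f i)) = -(A ^ 2 * (e1 * e2 + t1 * t2)) := by
    unfold dt
    simp only [d1, d2]
    rw [Fin.sum_univ_three]
    linear_combination -(A ^ 2 * e1 * e2) * a1 - A ^ 2 * t1 * t2 * a2 + A ^ 2 * (e2 * t1 + e1 * t2) * a4
  have hG : dt (fun i => D2 (f i)) (fun i => D2 (f i)) = A ^ 2 * (e1 ^ 2 + t1 ^ 2) := by
    unfold dt
    simp only [d2]
    rw [Fin.sum_univ_three]
    linear_combination A ^ 2 * e1 ^ 2 * a1 + A ^ 2 * t1 ^ 2 * a2 - 2 * A ^ 2 * e1 * t1 * a4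
  have k1 : Ai * (dt (fun i => D2 (f i)) (fun i => D2 (f i)) * D1 x -
      dt (fun i => D1 (f i)) (fun i => D2 (f i)) * D2 x) =
      A * (t1 * dv D1 D2 t1 t2 x + e1 * dv D1 D2 e1 e2 x) := by
    rw [hG, hFF, dv_apply, dv_apply]
    linear_combination A * ((e1 ^ 2 + t1 ^ 2) * D1 x + (e1 * e2 + t1 * t2) * D2 x) * hAi
  have k2 : Ai * (dt (fun i => D1 (f i)) (fun i => D1 (f i)) * D2 x -
      dt (fun i => D1 (f i)) (fun i => D2 (f i)) * D1 x) =
      A * (t2 * dv D1 D2 t1 t2 x + e2 * dv D1 D2 e1 e2 x) := by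
    rw [hE, hFF, dv_apply, dv_apply]
    linear_combination A * ((e2 ^ 2 + t2 ^ 2) * D2 x + (e1 * e2 + t1 * t2) * D1 x) * hAi
  unfold LR
  rw [k1, k2, hL]
  linear_combination (Lap (dv D1 D2 t1 t2) (dv D1 D2 e1 e2) α κ x) * hAi

/-- The coordinate frame. -/
theorem coord_onb {D1 D2 : Derivation ℤ R R} {f : Fin 3 → R} {A Ai s si : R}
    (hAA : A ^ 2 = dt (fun i => D1 (f i)) (fun i => D1 (f i)) * dt (fun i => D2 (f i)) (fun i => D2 (f i)) -
      dt (fun i => D1 (f i)) (fun i => D2 (f i)) ^ 2) (hAi : A * Ai = 1)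
    (hs : s * s = dt (fun i => D1 (f i)) (fun i => D1 (f i))) (hsi : s * si = 1) :
    ∃ (t1 t2 e1 e2 : R) (τ ε : Fin 3 → R), (∀ i, τ i = t1 * D1 (f i) + t2 * D2 (f i)) ∧
      (∀ i, ε i = e1 * D1 (f i) + e2 * D2 (f i)) ∧ Onb τ ε (crs τ ε) ∧
      A * (t1 * e2 - t2 * e1) = 1 := by
  refine ⟨si, 0, -(dt (fun i => D1 (f i)) (fun i => D2 (f i)) * si * Ai), s * Ai,
    fun i => si * D1 (f i) + 0 * D2 (f i),
    fun i => -(dt (fun i => D1 (f i)) (fun i => D2 (f i)) * si * Ai) * D1 (f i) + s * Ai * D2 (f i),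
    fun i => rfl, fun i => rfl, onb_crs ?_ ?_ ?_, ?_⟩
  · have e : ∑ i, (si * D1 (f i) + 0 * D2 (f i)) * (si * D1 (f i) + 0 * D2 (f i)) =
        si ^ 2 * dt (fun i => D1 (f i)) (fun i => D1 (f i)) := by
      unfold dt
      rw [Finset.mul_sum]
      exact Finset.sum_congr rfl fun i _ => by ring
    rw [e, ← hs]
    linear_combination (s * si + 1) * hsi
  · have e : ∀ F : R, ∑ i, (-(F * si * Ai) * D1 (f i) + s * Ai * D2 (f i)) *
        (-(F * si * Ai) * D1 (f i) + s * Ai * D2 (f i)) =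
        (F * si * Ai) ^ 2 * dt (fun i => D1 (f i)) (fun i => D1 (f i)) -
        2 * (F * si * Ai) * (s * Ai) * dt (fun i => D1 (f i)) (fun i => D2 (f i)) +
        (s * Ai) ^ 2 * dt (fun i => D2 (f i)) (fun i => D2 (f i)) := by
      intro F
      unfold dt
      rw [Finset.mul_sum, Finset.mul_sum, Finset.mul_sum, ← Finset.sum_sub_distrib, ← Finset.sum_add_distrib]
      exact Finset.sum_congr rfl fun i _ => by ring
    rw [e]
    generalize dt (fun i => D1 (f i)) (fun i => D1 (f i)) = E at *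
    generalize dt (fun i => D1 (f i)) (fun i => D2 (f i)) = F at *
    generalize dt (fun i => D2 (f i)) (fun i => D2 (f i)) = G at *
    subst hs
    linear_combination (F ^ 2 * Ai ^ 2 * (s * si + 1)) * hsi - 2 * F ^ 2 * Ai ^ 2 * hsi - Ai ^ 2 * hAA +
      (A * Ai + 1) * hAi
  · have e : ∀ F : R, ∑ i, (si * D1 (f i) + 0 * D2 (f i)) * (-(F * si * Ai) * D1 (f i) + s * Ai * D2 (f i)) =
        -(F * si ^ 2 * Ai) * dt (fun i => D1 (f i)) (fun i => D1 (f i)) +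
        si * (s * Ai) * dt (fun i => D1 (f i)) (fun i => D2 (f i)) := by
      intro F
      unfold dt
      rw [Finset.mul_sum, Finset.mul_sum, ← Finset.sum_add_distrib]
      exact Finset.sum_congr rfl fun i _ => by ring
    rw [e]
    generalize dt (fun i => D1 (f i)) (fun i => D1 (f i)) = E at *
    generalize dt (fun i => D1 (f i)) (fun i => D2 (f i)) = F at *
    subst hs
    linear_combination (-(F * Ai * (s * si))) * hsi
  · linear_combination hAi * (s * si) + hsi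

/-- Rotation of a frame. -/
theorem rot_onb {τ ε ν : Fin 3 → R} (ho : Onb τ ε ν) {c s : R} (h : c ^ 2 + s ^ 2 = 1) :
    Onb (fun i => c * τ i + s * ε i) (fun i => -(s * τ i) + c * ε i) ν := by
  have a1 := ho.tt
  have a2 := ho.ee
  have a3 := ho.nn
  have a4 := ho.te
  have a5 := ho.tn
  have a6 := ho.en
  rw [Fin.sum_univ_three] at a1 a2 a3 a4 a5 a6
  refine ⟨?_, ?_, ho.nn, ?_, ?_, ?_⟩ <;> rw [Fin.sum_univ_three]
  · linear_combination c ^ 2 * a1 + s ^ 2 * a2 + 2 * c * s * a4 + h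
  · linear_combination s ^ 2 * a1 + c ^ 2 * a2 - 2 * c * s * a4 + h
  · linear_combination -(c * s) * a1 + c * s * a2 + (c ^ 2 - s ^ 2) * a4
  · linear_combination c * a5 + s * a6
  · linear_combination -s * a5 + c * a6

/-- The normal component of the Laplacian of `f`. -/
theorem fr_h {T E : Derivation ℤ R R} {f τ ε ν : Fin 3 → R} {α l σ κ μ : R}
    (F : Fr T E f τ ε ν α l σ κ μ) {h : R} (hh : ∀ i, Lap T E α κ (f i) = h * ν i) : l + μ = h := by
  have k := (F.comp (x := 0) (y := 0) (z := l + μ - h) fun i => by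
    have k := hh i
    rw [F.lap_f] at k
    linear_combination k).2.2
  linear_combination k

/-- The gradient frame and its relations. -/
theorem grad_rel {D1 D2 : Derivation ℤ R R} (hc : ∀ x, D1 (D2 x) = D2 (D1 x))
    (tor2 : ∀ x : R, 2 * x = 0 → x = 0) {f τ ε ν c : Fin 3 → R} {t1 t2 e1 e2 A Ai h g gi a b : R}
    (hτ : ∀ i, τ i = t1 * D1 (f i) + t2 * D2 (f i)) (hε : ∀ i, ε i = e1 * D1 (f i) + e2 * D2 (f i))
    (ho : Onb τ ε ν) (hA : A * (t1 * e2 - t2 * e1) = 1) (hAi : A * Ai = 1)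
    (hh : ∀ i, LR D1 D2 f Ai (f i) = h * ν i)
    (hg : g * g = dv D1 D2 t1 t2 h ^ 2 + dv D1 D2 e1 e2 h ^ 2) (hgi : g * gi = 1)
    (a1 : D1 a = 0) (a2 : D2 a = 0) (b1 : D1 b = 0) (b2 : D2 b = 0)
    (c1 : ∀ i, D1 (c i) = 0) (c2 : ∀ i, D2 (c i) = 0)
    (h2 : ∀ i, LR D1 D2 f Ai (LR D1 D2 f Ai (f i)) = a * LR D1 D2 f Ai (f i) + b * (f i - c i)) :
    ∃ x1 x2 y1 y2 α l σ κ μ q, Rel (dv D1 D2 x1 x2) (dv D1 D2 y1 y2) α l σ κ μ g q a b := by
  obtain ⟨u, hu⟩ : ∃ u, u = dv D1 D2 t1 t2 h * gi := ⟨_, rfl⟩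
  obtain ⟨v, hv⟩ : ∃ v, v = dv D1 D2 e1 e2 h * gi := ⟨_, rfl⟩
  have huv : u ^ 2 + v ^ 2 = 1 := by
    rw [hu, hv]
    linear_combination (-gi ^ 2) * hg + (g * gi + 1) * hgi
  have ho' := rot_onb ho huv
  obtain ⟨α, l, σ, κ, μ, hF, hL⟩ := lap_frame (f := f) (t1 := u * t1 + v * e1) (t2 := u * t2 + v * e2)
    (e1 := -(v * t1) + u * e1) (e2 := -(v * t2) + u * e2) hc tor2
    (fun i => by simp only [hτ, hε]; ring) (fun i => by simp only [hτ, hε]; ring) ho'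
    (A := A) (Ai := Ai) (by linear_combination (u ^ 2 + v ^ 2) * hA + huv) hAi
  have hlm : l + μ = h := fr_h hF fun i => by rw [← hL, hh]
  have hT : dv D1 D2 (u * t1 + v * e1) (u * t2 + v * e2) (l + μ) = g := by
    rw [hlm]
    have e : dv D1 D2 (u * t1 + v * e1) (u * t2 + v * e2) h = u * dv D1 D2 t1 t2 h + v * dv D1 D2 e1 e2 h := by
      rw [dv_apply, dv_apply, dv_apply]; ring
    rw [e, hu, hv]
    linear_combination (-gi) * hg + g * hgi
  have hE : dv D1 D2 (-(v * t1) + u * e1) (-(v * t2) + u * e2) (l + μ) = 0 := by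
    rw [hlm]
    have e : dv D1 D2 (-(v * t1) + u * e1) (-(v * t2) + u * e2) h =
        -(v * dv D1 D2 t1 t2 h) + u * dv D1 D2 e1 e2 h := by
      rw [dv_apply, dv_apply, dv_apply]; ring
    rw [e, hu, hv]
    ring
  obtain ⟨q, hq⟩ := hF.rel (a := a) (b := b) (c := c) (by rw [dv_apply, a1, a2]; ring)
    (by rw [dv_apply, a1, a2]; ring) (by rw [dv_apply, b1, b2]; ring) (by rw [dv_apply, b1, b2]; ring)
    (fun i => by rw [dv_apply, c1, c2]; ring) (fun i => by rw [dv_apply, c1, c2]; ring) hT hE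
    (fun i => by rw [← hL, ← hL, h2])
  exact ⟨_, _, _, _, _, _, _, _, _, _, hq⟩

end Pool.Agent.Helper99.TT
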