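import Pool.Agent.Helper99.TT.Ring
import Pool.Agent.Helper99.TT.Surf
import Pool.Agent.Helper44.FT.Lap

/-!
# Project TT: from surfaces to the differential ring
-/

set_option autoImplicit false

namespace Pool.Agent.Helper99.TT

open TopologicalSpace Pool.Agent.Helper44.FT

/-- Euclidean three space. -/
abbrev V3 : Type := EuclideanSpace ℝ (Fin 3)

/-- The components of a smooth vector valued function. -/
noncomputable def cp {W : Opens (ℝ × ℝ)} (φ : ℝ × ℝ → V3) (h : ContDiffOn ℝ inf φ W) (i : Fin 3) : Sm W :=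
  Sm.mk (fun q => φ q i) (contDiffOn_euclidean.1 h i)

theorem fd_comp {φ : ℝ × ℝ → V3} {p : ℝ × ℝ} (h : DifferentiableAt ℝ φ p) (v : ℝ × ℝ) (i : Fin 3) :
    fderiv ℝ (fun q => φ q i) p v = (fderiv ℝ φ p v) i := by
  have h1 := hasFDerivWithinAt_euclidean.mp (hasFDerivWithinAt_univ.mpr h.hasFDerivAt)
  rw [(hasFDerivWithinAt_univ.mp (h1 i)).fderiv]
  rfl

theorem cp_dd {W : Opens (ℝ × ℝ)} (φ : ℝ × ℝ → V3) (h : ContDiffOn ℝ inf φ W) (i : Fin 3) (v : ℝ × ℝ)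
    (p : W) : (dd v (cp φ h i)).1 p = (fderiv ℝ φ p v) i := by
  unfold cp
  rw [dd_mk, Sm.mk_val]
  exact fd_comp ((h.differentiableOn (by simp) p p.2).differentiableAt (W.isOpen.mem_nhds p.2)) v i

theorem dt_val {W : Opens (ℝ × ℝ)} (u v : Fin 3 → Sm W) (p : W) :
    (dt u v).1 p = (u 0).1 p * (v 0).1 p + (u 1).1 p * (v 1).1 p + (u 2).1 p * (v 2).1 p := by
  unfold dt
  rw [Fin.sum_univ_three]
  rfl

theorem inner_val (u v : V3) : inner ℝ u v = u 0 * v 0 + u 1 * v 1 + u 2 * v 2 := by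
  rw [PiLp.inner_apply, Fin.sum_univ_three]
  simp only [RCLike.inner_apply, conj_trivial]
  ring

theorem fdv_smooth {W : Opens (ℝ × ℝ)} {φ : ℝ × ℝ → V3} (h : ContDiffOn ℝ inf φ W) (v : ℝ × ℝ) :
    ContDiffOn ℝ inf (fun q => fderiv ℝ φ q v) W :=
  (h.fderiv_of_isOpen W.isOpen (by simp)).clm_apply contDiffOn_const

section

variable {W : Opens (ℝ × ℝ)} {f : ℝ × ℝ → V3} {E F G : ℝ × ℝ → ℝ} {L : (ℝ × ℝ → V3) → ℝ × ℝ → V3}

theorem smE (S : Sf (W : Set (ℝ × ℝ)) f E F G L) : ContDiffOn ℝ inf E W := by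
  have : E = fun p => inner ℝ (fderiv ℝ f p ((1:ℝ), (0:ℝ))) (fderiv ℝ f p ((1:ℝ), (0:ℝ))) := funext S.hE
  rw [this]
  exact (fdv_smooth S.smooth _).inner ℝ (fdv_smooth S.smooth _)

theorem smF (S : Sf (W : Set (ℝ × ℝ)) f E F G L) : ContDiffOn ℝ inf F W := by
  have : F = fun p => inner ℝ (fderiv ℝ f p ((1:ℝ), (0:ℝ))) (fderiv ℝ f p ((0:ℝ), (1:ℝ))) := funext S.hF
  rw [this]
  exact (fdv_smooth S.smooth _).inner ℝ (fdv_smooth S.smooth _)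

theorem smG (S : Sf (W : Set (ℝ × ℝ)) f E F G L) : ContDiffOn ℝ inf G W := by
  have : G = fun p => inner ℝ (fderiv ℝ f p ((0:ℝ), (1:ℝ))) (fderiv ℝ f p ((0:ℝ), (1:ℝ))) := funext S.hG
  rw [this]
  exact (fdv_smooth S.smooth _).inner ℝ (fdv_smooth S.smooth _)

theorem smR (S : Sf (W : Set (ℝ × ℝ)) f E F G L) :
    ContDiffOn ℝ inf (fun q => (Real.sqrt (E q * G q - F q ^ 2))⁻¹) W := by
  refine ContDiffOn.inv ((((smE S).mul (smG S)).sub ((smF S).pow 2)).sqrt fun p hp => (S.det_pos hp).ne') ?_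
  intro p hp
  exact (Real.sqrt_pos.2 (S.det_pos hp)).ne'

/-- The area density and its inverse as elements of the ring. -/
theorem area_ring (S : Sf (W : Set (ℝ × ℝ)) f E F G L) : ∃ A Ai : Sm W, A * Ai = 1 ∧
    A ^ 2 = dt (fun i => dd (1, 0) (cp f S.smooth i)) (fun i => dd (1, 0) (cp f S.smooth i)) *
      dt (fun i => dd (0, 1) (cp f S.smooth i)) (fun i => dd (0, 1) (cp f S.smooth i)) -
      dt (fun i => dd (1, 0) (cp f S.smooth i)) (fun i => dd (0, 1) (cp f S.smooth i)) ^ 2 ∧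
    ∀ p : W, Ai.1 p = (Real.sqrt (E p * G p - F p ^ 2))⁻¹ := by
  refine ⟨Sm.mk (fun q => Real.sqrt (E q * G q - F q ^ 2))
    ((((smE S).mul (smG S)).sub ((smF S).pow 2)).sqrt fun p hp => (S.det_pos hp).ne'),
    Sm.mk _ (smR S), ?_, ?_, fun p => rfl⟩
  · apply Sm.ext'
    intro p
    change Real.sqrt (E p * G p - F p ^ 2) * (Real.sqrt (E p * G p - F p ^ 2))⁻¹ = 1
    exact mul_inv_cancel₀ (Real.sqrt_pos.2 (S.det_pos p.2)).ne'
  · apply Sm.ext'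
    intro p
    change Real.sqrt (E p * G p - F p ^ 2) ^ 2 = (dt (R := Sm W) _ _).1 p * (dt (R := Sm W) _ _).1 p -
      (dt (R := Sm W) _ _).1 p ^ 2
    rw [Real.sq_sqrt (S.det_pos p.2).le, dt_val, dt_val, dt_val, S.hE, S.hF, S.hG, inner_val, inner_val,
      inner_val]
    simp only [cp_dd]

theorem comp_lap (S : Sf (W : Set (ℝ × ℝ)) f E F G L) {φ : ℝ × ℝ → V3} (hφ : ContDiffOn ℝ inf φ W)
    {Ai : Sm W} (hAi : ∀ p : W, Ai.1 p = (Real.sqrt (E p * G p - F p ^ 2))⁻¹) (i : Fin 3) (p : W) :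
    (L φ p) i = -(LR (dd (1, 0)) (dd (0, 1)) (fun j => cp f S.smooth j) Ai (cp φ hφ i)).1 p := by
  have hd : ∀ {ψ : ℝ × ℝ → V3}, ContDiffOn ℝ inf ψ W → DifferentiableAt ℝ ψ p := fun {ψ} h =>
    ((h.differentiableOn (by simp)) p p.2).differentiableAt (W.isOpen.mem_nhds p.2)
  have s1 : ContDiffOn ℝ inf (fun q => (Real.sqrt (E q * G q - F q ^ 2))⁻¹ •
      (G q • fderiv ℝ φ q ((1:ℝ), (0:ℝ)) - F q • fderiv ℝ φ q ((0:ℝ), (1:ℝ)))) W :=
    (smR S).smul (((smG S).smul (fdv_smooth hφ _)).sub ((smF S).smul (fdv_smooth hφ _)))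
  have s2 : ContDiffOn ℝ inf (fun q => (Real.sqrt (E q * G q - F q ^ 2))⁻¹ •
      (E q • fderiv ℝ φ q ((0:ℝ), (1:ℝ)) - F q • fderiv ℝ φ q ((1:ℝ), (0:ℝ)))) W :=
    (smR S).smul (((smE S).smul (fdv_smooth hφ _)).sub ((smF S).smul (fdv_smooth hφ _)))
  rw [S.hL φ p]
  simp only [PiLp.smul_apply, PiLp.add_apply, smul_eq_mul]
  rw [← fd_comp (hd s1), ← fd_comp (hd s2)]
  unfold LR
  change _ = -(Ai.1 p * ((dd (W := W) (1, 0) _).1 p + (dd (W := W) (0, 1) _).1 p))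
  rw [hAi p, dd_val, dd_val]
  rw [neg_mul]
  congr 3
  · refine congrArg (fun T : (ℝ × ℝ) →L[ℝ] ℝ => T (1, 0)) ?_
    refine fd_congr (fun q hq => ?_) p
    rw [ext_of _ hq]
    change _ = (Ai.1 ⟨q, hq⟩ * ((dt (R := Sm W) _ _).1 ⟨q, hq⟩ * (dd (W := W) (1, 0) _).1 ⟨q, hq⟩ -
      (dt (R := Sm W) _ _).1 ⟨q, hq⟩ * (dd (W := W) (0, 1) _).1 ⟨q, hq⟩))
    rw [hAi ⟨q, hq⟩, dt_val, dt_val, cp_dd, cp_dd]
    simp only [PiLp.smul_apply, PiLp.sub_apply, smul_eq_mul]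
    rw [S.hF, S.hG, inner_val, inner_val]
    simp only [cp_dd]
  · refine congrArg (fun T : (ℝ × ℝ) →L[ℝ] ℝ => T (0, 1)) ?_
    refine fd_congr (fun q hq => ?_) p
    rw [ext_of _ hq]
    change _ = (Ai.1 ⟨q, hq⟩ * ((dt (R := Sm W) _ _).1 ⟨q, hq⟩ * (dd (W := W) (0, 1) _).1 ⟨q, hq⟩ -
      (dt (R := Sm W) _ _).1 ⟨q, hq⟩ * (dd (W := W) (1, 0) _).1 ⟨q, hq⟩))
    rw [hAi ⟨q, hq⟩, dt_val, dt_val, cp_dd, cp_dd]
    simp only [PiLp.smul_apply, PiLp.sub_apply, smul_eq_mul]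
    rw [S.hE, S.hF, inner_val, inner_val]
    simp only [cp_dd]

end

end Pool.Agent.Helper99.TT
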