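import Pool.Agent.Helper99.TT.Defs

/-!
# Project TT: the special case `σ = 0`, `3 l + μ = 0` is impossible (pure algebra)
-/

set_option autoImplicit false

namespace Pool.Agent.Helper99.TT

theorem sp {R : Type*} [CommRing R] {T E : Derivation ℤ R R} {α l κ μ g q a b : R}
    (r : Rel T E α l 0 κ μ g q a b) (hg : IsUnit g) (hw : 3 * l + μ = 0)
    (tor : ∀ (n : ℕ) (x : R), n ≠ 0 → (n : R) * x = 0 → x = 0) : (1 : R) = 0 := by
  have t : ∀ (n : ℕ) (x : R), n ≠ 0 → (n : R) * x = 0 → x = 0 := tor
  have n2 : E (2 : R) = 0 := by have := E.map_natCast 2; simpa using this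
  have n3 : E (3 : R) = 0 := by have := E.map_natCast 3; simpa using this
  have m2 : T (2 : R) = 0 := by have := T.map_natCast 2; simpa using this
  have m3 : T (3 : R) = 0 := by have := T.map_natCast 3; simpa using this
  have m4 : T (4 : R) = 0 := by have := T.map_natCast 4; simpa using this
  have m8 : T (8 : R) = 0 := by have := T.map_natCast 8; simpa using this
  have m10 : T (10 : R) = 0 := by have := T.map_natCast 10; simpa using this
  have m56 : T (56 : R) = 0 := by have := T.map_natCast 56; simpa using this
  have hμ : μ = -(3 * l) := by linear_combination hw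
  have h1 : q * l + b = 0 := by
    have k := r.Tw
    rw [hw] at k
    simp only [mul_zero, map_zero, zero_mul] at k
    linear_combination k
  have h2 : q * μ + b = 0 := by
    have k := r.Ev
    rw [hw] at k
    simp only [mul_zero, map_zero, zero_mul] at k
    linear_combination k
  have hb : b = 0 := by
    refine t 4 _ (by norm_num) ?_
    push_cast
    rw [hμ] at h2
    linear_combination 3 * h1 + h2
  have hTl : 2 * T l = -g := by
    have k := r.Th
    rw [hμ, map_neg, Derivation.leibniz, m3] at k
    simp only [smul_eq_mul] at k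
    linear_combination -k
  have hEl : E l = 0 := by
    have k := r.Eh
    rw [hμ, map_neg, Derivation.leibniz, n3] at k
    simp only [smul_eq_mul] at k
    refine t 2 _ (by norm_num) ?_
    push_cast
    linear_combination -k
  have hTq : T q = 0 := by
    have k := r.Tq
    rw [hw] at k
    linear_combination k
  have hq : q = 0 := by
    have k : T (q * l) = 0 := by
      have e : q * l = 0 := by rw [hb] at h1; linear_combination h1
      rw [e, map_zero]
    rw [Derivation.leibniz, hTq] at k
    simp only [smul_eq_mul] at k
    have k2 : g * q = 0 := by linear_combination -2 * k + q * hTl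
    exact (hg.mul_right_eq_zero).1 k2
  have hαl : α * l = 0 := by
    refine t 4 _ (by norm_num) ?_
    have k := r.cod1
    rw [hμ, hEl, map_zero] at k
    push_cast
    linear_combination k
  have hκl : 3 * g = 8 * (κ * l) := by
    have k := r.cod2
    rw [hμ, map_neg, Derivation.leibniz, m3] at k
    simp only [smul_eq_mul, map_zero] at k
    linear_combination 2 * k + 3 * hTl
  have hα : α = 0 := by
    refine t 3 _ (by norm_num) ?_
    push_cast
    refine (hg.mul_right_eq_zero).1 ?_
    linear_combination α * hκl + 8 * κ * hαl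
  have hTg : T g = -(20 * l ^ 3) - 2 * (a * l) - κ * g := by
    have k := r.Tg
    rw [hμ, hq] at k
    linear_combination k
  have hTκ : T κ = 3 * l ^ 2 - κ ^ 2 := by
    have k := r.gauss
    rw [hμ, hα, map_zero] at k
    linear_combination k
  have hκg : 4 * (κ * g) = 84 * l ^ 3 + 6 * (a * l) := by
    have k : T (3 * g) = T (8 * (κ * l)) := by rw [hκl]
    simp only [Derivation.leibniz, smul_eq_mul, m3, m8] at k
    rw [hTg, hTκ] at k
    linear_combination k + 4 * κ * hTl + κ * hκl
  have hg2 : g ^ 2 = 56 * l ^ 4 + 4 * (a * l ^ 2) := by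
    have k : ((3 : ℕ) : R) * (g ^ 2 - (56 * l ^ 4 + 4 * (a * l ^ 2))) = 0 := by
      push_cast
      linear_combination g * hκl + 2 * l * hκg
    linear_combination t 3 _ (by norm_num) k
  have hTg2 : 2 * T g = -(112 * l ^ 3) - 4 * (a * l) := by
    have k : T (g ^ 2) = T (56 * l ^ 4 + 4 * (a * l ^ 2)) := by rw [hg2]
    simp only [map_add, Derivation.leibniz, Derivation.leibniz_pow, smul_eq_mul, nsmul_eq_mul, m4, m56,
      r.Ta] at k
    push_cast at k
    refine hg.mul_left_cancel ?_
    linear_combination k + (112 * l ^ 3 + 4 * a * l) * hTl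
  have h10 : 10 * l ^ 3 = a * l := by
    have k : ((6 : ℕ) : R) * (10 * l ^ 3 - a * l) = 0 := by
      push_cast
      linear_combination -4 * hTg + 2 * hTg2 + hκg
    linear_combination t 6 _ (by norm_num) k
  have ha : a = 30 * l ^ 2 := by
    have k : T (10 * l ^ 3) = T (a * l) := by rw [h10]
    simp only [Derivation.leibniz, Derivation.leibniz_pow, smul_eq_mul, nsmul_eq_mul, m10,
      r.Ta] at k
    push_cast at k
    refine hg.mul_left_cancel ?_
    linear_combination 2 * k + (a - 30 * l ^ 2) * hTl
  have hl : l ^ 3 = 0 := by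
    refine t 20 _ (by norm_num) ?_
    push_cast
    rw [ha] at h10
    linear_combination -h10
  have hfin : g ^ 2 = 0 := by
    rw [hg2, ha]
    linear_combination 176 * l * hl
  have h5 : IsUnit (0 : R) := by rw [← hfin]; exact hg.pow 2
  obtain ⟨u, hu⟩ := h5
  have := u.mul_inv
  rw [hu, zero_mul] at this
  exact this.symm

end Pool.Agent.Helper99.TT
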