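import Pool.Agent.Helper99.TT.Ode
import Pool.Agent.Helper99.TT.Gen
import Pool.Agent.Helper99.TT.Sp

/-!
# Project TT: the gradient of the mean curvature cannot be nonzero on an open set
-/

set_option autoImplicit false

namespace Pool.Agent.Helper99.TT

open TopologicalSpace Set

theorem cyl {R : Type*} [CommRing R] {T E : Derivation ℤ R R} {α l g q a b : R}
    (r : Rel T E α l 0 0 0 g q a b) (hg : IsUnit g)
    (tor : ∀ (n : ℕ) (x : R), n ≠ 0 → (n : R) * x = 0 → x = 0) : g = 0 := by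
  have m2 : T (2 : R) = 0 := by have := T.map_natCast 2; simpa using this
  have m3 : T (3 : R) = 0 := by have := T.map_natCast 3; simpa using this
  have m4 : T (4 : R) = 0 := by have := T.map_natCast 4; simpa using this
  have m10 : T (10 : R) = 0 := by have := T.map_natCast 10; simpa using this
  have m12 : T (12 : R) = 0 := by have := T.map_natCast 12; simpa using this
  have m30 : T (30 : R) = 0 := by have := T.map_natCast 30; simpa using this
  have m120 : T (120 : R) = 0 := by have := T.map_natCast 120; simpa using this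
  have hb : b = 0 := by
    have k := r.Ev
    simp only [mul_zero, map_zero] at k
    linear_combination k
  have Tl : T l = g := by
    have k := r.Th
    rw [map_zero] at k
    linear_combination k
  have Tg : T g = l ^ 3 + a * l + q := by
    have k := r.Tg
    linear_combination k
  have Tq : T q = 3 * (g * l ^ 2) := by
    have k := r.Tq
    linear_combination k
  have e1 : 3 * g ^ 2 + 3 * l ^ 4 + 3 * (a * l ^ 2) + 4 * (q * l) = 0 := by
    have k := r.Tw
    rw [add_zero, Derivation.leibniz, Derivation.leibniz, m3, Tl, Tg, hb] at k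
    simp only [smul_eq_mul] at k
    linear_combination k
  have e2 : 30 * l ^ 3 + 12 * (a * l) + 10 * q = 0 := by
    have k : T (3 * g ^ 2 + 3 * l ^ 4 + 3 * (a * l ^ 2) + 4 * (q * l)) = 0 := by rw [e1, map_zero]
    simp only [map_add, Derivation.leibniz, Derivation.leibniz_pow, smul_eq_mul, nsmul_eq_mul, m3, m4,
      Tl, Tg, Tq, r.Ta] at k
    push_cast at k
    refine (hg.mul_right_eq_zero).1 ?_
    linear_combination k
  have e3 : 120 * l ^ 2 + 12 * a = 0 := by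
    have k : T (30 * l ^ 3 + 12 * (a * l) + 10 * q) = 0 := by rw [e2, map_zero]
    simp only [map_add, Derivation.leibniz, Derivation.leibniz_pow, smul_eq_mul, nsmul_eq_mul, m30, m12,
      m10, Tl, Tq, r.Ta] at k
    push_cast at k
    refine (hg.mul_right_eq_zero).1 ?_
    linear_combination k
  have e4 : l = 0 := by
    have k : T (120 * l ^ 2 + 12 * a) = 0 := by rw [e3, map_zero]
    simp only [map_add, Derivation.leibniz, Derivation.leibniz_pow, smul_eq_mul, nsmul_eq_mul, m120, m12,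
      Tl, r.Ta] at k
    push_cast at k
    refine tor 240 _ (by norm_num) ?_
    push_cast
    refine (hg.mul_right_eq_zero).1 ?_
    linear_combination k
  rw [← Tl, e4, map_zero]

/-- The open subset where a smooth function does not vanish. -/
noncomputable def nz {W : Opens (ℝ × ℝ)} (u : Sm W) : Opens (ℝ × ℝ) :=
  ⟨W ∩ ext W u.1 ⁻¹' {0}ᶜ, u.2.continuousOn.isOpen_inter_preimage W.isOpen isOpen_compl_singleton⟩

theorem nz_le {W : Opens (ℝ × ℝ)} (u : Sm W) : nz u ≤ W := fun _ h => h.1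

theorem nz_ne {W : Opens (ℝ × ℝ)} (u : Sm W) (p : nz u) : (res (nz_le u) u).1 p ≠ 0 := by
  rw [res_val]
  have h : ext W u.1 p ≠ 0 := p.2.2
  rwa [ext_of _ (nz_le u p.2)] at h

theorem mem_nz {W : Opens (ℝ × ℝ)} (u : Sm W) (p : W) (h : u.1 p ≠ 0) : (p : ℝ × ℝ) ∈ nz u :=
  ⟨p.2, by rw [Set.mem_preimage, ext_coe]; exact h⟩

theorem dv_res {V W : Opens (ℝ × ℝ)} (h : V ≤ W) (x y u : Sm W) :
    dv (dd (1, 0)) (dd (0, 1)) (res h x) (res h y) (res h u) =
      res h (dv (dd (1, 0)) (dd (0, 1)) x y u) := by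
  rw [dv_apply, dv_apply, dd_res, dd_res, map_add, map_mul, map_mul]

theorem rev_case {W : Opens (ℝ × ℝ)} (p0 : W) {t1 t2 e1 e2 α l κ μ g q a b : Sm W} (a0 b0 : ℝ)
    (ha : ∀ p, a.1 p = a0) (hb : ∀ p, b.1 p = b0)
    (r : Rel (dv (dd (1, 0)) (dd (0, 1)) t1 t2) (dv (dd (1, 0)) (dd (0, 1)) e1 e2) α l 0 κ μ g q a b)
    (hg : ∀ p, g.1 p ≠ 0) (hw : ∀ p, (3 * l + μ).1 p ≠ 0) : False := by
  by_cases hx : ∀ p, (κ ^ 2 + μ ^ 2).1 p = 0
  · have hκ : κ = 0 := Sm.ext' fun p => by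
      have k : κ.1 p ^ 2 + μ.1 p ^ 2 = 0 := hx p
      have k2 : κ.1 p ^ 2 = 0 := by nlinarith [sq_nonneg (κ.1 p), sq_nonneg (μ.1 p)]
      exact pow_eq_zero_iff (n := 2) (by norm_num) |>.1 k2
    have hμ : μ = 0 := Sm.ext' fun p => by
      have k : κ.1 p ^ 2 + μ.1 p ^ 2 = 0 := hx p
      have k2 : μ.1 p ^ 2 = 0 := by nlinarith [sq_nonneg (κ.1 p), sq_nonneg (μ.1 p)]
      exact pow_eq_zero_iff (n := 2) (by norm_num) |>.1 k2
    subst hκ hμ
    have k := cyl r (Sm.unit g hg) Sm.tor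
    exact hg p0 (by rw [k]; rfl)
  · push Not at hx
    obtain ⟨p, hp⟩ := hx
    have r' := r.map (res (nz_le (κ ^ 2 + μ ^ 2)))
      (T' := dv (dd (1, 0)) (dd (0, 1)) (res (nz_le (κ ^ 2 + μ ^ 2)) t1) (res (nz_le (κ ^ 2 + μ ^ 2)) t2))
      (E' := dv (dd (1, 0)) (dd (0, 1)) (res (nz_le (κ ^ 2 + μ ^ 2)) e1) (res (nz_le (κ ^ 2 + μ ^ 2)) e2))
      (fun x => dv_res _ _ _ _) (fun x => dv_res _ _ _ _)
    rw [map_zero] at r'
    have hpos : ∀ p, 0 < (res (nz_le (κ ^ 2 + μ ^ 2)) κ ^ 2 + res (nz_le (κ ^ 2 + μ ^ 2)) μ ^ 2).1 p := by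
      intro p
      have k := nz_ne (κ ^ 2 + μ ^ 2) p
      rw [map_add, map_pow, map_pow] at k
      refine lt_of_le_of_ne ?_ (Ne.symm k)
      change 0 ≤ (res (nz_le (κ ^ 2 + μ ^ 2)) κ).1 p ^ 2 + (res (nz_le (κ ^ 2 + μ ^ 2)) μ).1 p ^ 2
      positivity
    obtain ⟨y, hy⟩ := (Sm.unit _ fun p => (hpos p).ne').exists_right_inv
    have hypos : ∀ p, 0 < y.1 p := by
      intro p
      have k : (res (nz_le (κ ^ 2 + μ ^ 2)) κ ^ 2 + res (nz_le (κ ^ 2 + μ ^ 2)) μ ^ 2).1 p * y.1 p = 1 :=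
        congrArg (fun x : Sm (nz (κ ^ 2 + μ ^ 2)) => x.1 p) hy
      by_contra hcon
      push Not at hcon
      nlinarith [hpos p]
    obtain ⟨ρ, hρ, hρ0⟩ := Sm.sqrt y hypos
    have m := mid r' (Sm.unit _ fun p => by rw [res_val]; exact hg _)
      (Sm.unit _ fun p => by
        have k : (res (nz_le (κ ^ 2 + μ ^ 2)) (3 * l + μ)).1 p ≠ 0 := by rw [res_val]; exact hw _
        rwa [map_add, map_mul, map_ofNat] at k) Sm.tor ρ (by
        linear_combination hy +
          (res (nz_le (κ ^ 2 + μ ^ 2)) κ ^ 2 + res (nz_le (κ ^ 2 + μ ^ 2)) μ ^ 2) * hρ)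
    have k := ode _ _ a0 b0 (fun p => by rw [res_val]; exact ha _) (fun p => by rw [res_val]; exact hb _) m hρ0
      ⟨p, mem_nz _ p hp⟩
    rw [res_val] at k
    exact hg _ k

theorem no_grad {W : Opens (ℝ × ℝ)} (p0 : W) {t1 t2 e1 e2 α l σ κ μ g q a b : Sm W} (a0 b0 : ℝ)
    (ha : ∀ p, a.1 p = a0) (hb : ∀ p, b.1 p = b0)
    (r : Rel (dv (dd (1, 0)) (dd (0, 1)) t1 t2) (dv (dd (1, 0)) (dd (0, 1)) e1 e2) α l σ κ μ g q a b)
    (hg : ∀ p, g.1 p ≠ 0) : False := by
  have hσ : σ = 0 := by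
    by_contra hne
    obtain ⟨p, hp⟩ : ∃ p, σ.1 p ≠ 0 := by
      by_contra hcon
      push Not at hcon
      exact hne (Sm.ext' hcon)
    have r' := r.map (res (nz_le σ)) (T' := dv (dd (1, 0)) (dd (0, 1)) (res (nz_le σ) t1) (res (nz_le σ) t2))
      (E' := dv (dd (1, 0)) (dd (0, 1)) (res (nz_le σ) e1) (res (nz_le σ) e2))
      (fun x => dv_res _ _ _ _) (fun x => dv_res _ _ _ _)
    have k := gen r' (Sm.unit _ fun p => by rw [res_val]; exact hg _) (Sm.unit _ fun p => nz_ne σ p) Sm.tor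
    have k2 : res (nz_le σ) l + res (nz_le σ) μ = 0 := by
      apply Sm.ext'
      intro p
      have k3 := congrArg (fun x : Sm (nz σ) => x.1 p) k
      exact pow_eq_zero_iff (n := 3) (by norm_num) |>.1 k3
    have k4 := r'.Th
    rw [← map_add, k2, map_zero] at k4
    have k5 := congrArg (fun x : Sm (nz σ) => x.1 ⟨p, mem_nz σ p hp⟩) k4
    have k6 : (0 : ℝ) = (res (nz_le σ) g).1 ⟨p, mem_nz σ p hp⟩ := k5
    rw [res_val] at k6
    exact hg _ k6.symm
  subst hσ
  have hw : 3 * l + μ = 0 := by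
    by_contra hne
    obtain ⟨p, hp⟩ : ∃ p, (3 * l + μ).1 p ≠ 0 := by
      by_contra hcon
      push Not at hcon
      exact hne (Sm.ext' hcon)
    have r' := r.map (res (nz_le (3 * l + μ)))
      (T' := dv (dd (1, 0)) (dd (0, 1)) (res (nz_le (3 * l + μ)) t1) (res (nz_le (3 * l + μ)) t2))
      (E' := dv (dd (1, 0)) (dd (0, 1)) (res (nz_le (3 * l + μ)) e1) (res (nz_le (3 * l + μ)) e2))
      (fun x => dv_res _ _ _ _) (fun x => dv_res _ _ _ _)
    rw [map_zero] at r'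
    have hw' : ∀ p, (3 * res (nz_le (3 * l + μ)) l + res (nz_le (3 * l + μ)) μ).1 p ≠ 0 := by
      intro p
      have := nz_ne (3 * l + μ) p
      rwa [map_add, map_mul, map_ofNat] at this
    have hg' : ∀ p, (res (nz_le (3 * l + μ)) g).1 p ≠ 0 := fun p => by rw [res_val]; exact hg _
    have ha' : ∀ p, (res (nz_le (3 * l + μ)) a).1 p = a0 := fun p => by rw [res_val]; exact ha _
    have hb' : ∀ p, (res (nz_le (3 * l + μ)) b).1 p = b0 := fun p => by rw [res_val]; exact hb _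
    exact rev_case ⟨p, mem_nz _ p hp⟩ a0 b0 ha' hb' r' hg' hw'
  have k := sp r (Sm.unit g hg) hw Sm.tor
  have k2 := congrArg (fun x : Sm W => x.1 p0) k
  exact one_ne_zero k2

end Pool.Agent.Helper99.TT
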