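import Pool.Agent.Helper99.TT.Glue
import Pool.Agent.Helper99.TT.Loc
import Pool.Agent.Helper99.TT.Cmc

/-!
# Project TT: the mean curvature is constant
-/

set_option autoImplicit false

namespace Pool.Agent.Helper99.TT

open TopologicalSpace Pool.Agent.Helper44.FT

theorem Onb.map {R S : Type*} [CommRing R] [CommRing S] {τ ε ν : Fin 3 → R} (h : Onb τ ε ν) (ψ : R →+* S) :
    Onb (fun i => ψ (τ i)) (fun i => ψ (ε i)) (fun i => ψ (ν i)) := by
  constructor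
  · simpa only [map_sum, map_mul, map_one] using congrArg ψ h.tt
  · simpa only [map_sum, map_mul, map_one] using congrArg ψ h.ee
  · simpa only [map_sum, map_mul, map_one] using congrArg ψ h.nn
  · simpa only [map_sum, map_mul, map_zero] using congrArg ψ h.te
  · simpa only [map_sum, map_mul, map_zero] using congrArg ψ h.tn
  · simpa only [map_sum, map_mul, map_zero] using congrArg ψ h.en

theorem LR_res {V W : Opens (ℝ × ℝ)} (h : V ≤ W) (f : Fin 3 → Sm W) (Ai x : Sm W) :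
    LR (dd (1, 0)) (dd (0, 1)) (fun i => res h (f i)) (res h Ai) (res h x) =
      res h (LR (dd (1, 0)) (dd (0, 1)) f Ai x) := by
  unfold LR dt
  simp only [dd_res, ← map_mul, ← map_sub, ← map_sum, ← map_add]

theorem LR_neg {R : Type*} [CommRing R] (D1 D2 : Derivation ℤ R R) (f : Fin 3 → R) (Ai x : R) :
    LR D1 D2 f Ai (-x) = -LR D1 D2 f Ai x := by
  unfold LR
  rw [map_neg, map_neg]
  have e1 : ∀ a b : R, Ai * (a * -D1 x - b * -D2 x) = -(Ai * (a * D1 x - b * D2 x)) := fun a b => by ring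
  have e2 : ∀ a b : R, Ai * (a * -D2 x - b * -D1 x) = -(Ai * (a * D2 x - b * D1 x)) := fun a b => by ring
  rw [e1, e2, map_neg, map_neg]
  ring

theorem D_of_TE {R : Type*} [CommRing R] {D1 D2 : Derivation ℤ R R} {t1 t2 e1 e2 A x : R}
    (hA : A * (t1 * e2 - t2 * e1) = 1) (hT : dv D1 D2 t1 t2 x = 0) (hE : dv D1 D2 e1 e2 x = 0) :
    D1 x = 0 ∧ D2 x = 0 := by
  rw [dv_apply] at hT hE
  constructor
  · linear_combination (-(D1 x)) * hA + A * e2 * hT - A * t2 * hE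
  · linear_combination (-(D2 x)) * hA + A * t1 * hE - A * e1 * hT

theorem h_const {W : Opens (ℝ × ℝ)} {f τ ε ν c : Fin 3 → Sm W} {t1 t2 e1 e2 A Ai h a b : Sm W}
    (a0 b0 : ℝ) (ha : ∀ p, a.1 p = a0) (hb : ∀ p, b.1 p = b0)
    (hτ : ∀ i, τ i = t1 * dd (1, 0) (f i) + t2 * dd (0, 1) (f i))
    (hε : ∀ i, ε i = e1 * dd (1, 0) (f i) + e2 * dd (0, 1) (f i))
    (ho : Onb τ ε ν) (hA : A * (t1 * e2 - t2 * e1) = 1) (hAi : A * Ai = 1)
    (hh : ∀ i, LR (dd (1, 0)) (dd (0, 1)) f Ai (f i) = h * ν i)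
    (a1 : dd (1, 0) a = 0) (a2 : dd (0, 1) a = 0) (b1 : dd (1, 0) b = 0) (b2 : dd (0, 1) b = 0)
    (c1 : ∀ i, dd (1, 0) (c i) = 0) (c2 : ∀ i, dd (0, 1) (c i) = 0)
    (h2 : ∀ i, LR (dd (1, 0)) (dd (0, 1)) f Ai (LR (dd (1, 0)) (dd (0, 1)) f Ai (f i)) =
      a * LR (dd (1, 0)) (dd (0, 1)) f Ai (f i) + b * (f i - c i)) :
    dd (1, 0) h = 0 ∧ dd (0, 1) h = 0 := by
  obtain ⟨g2, hg2⟩ : ∃ g2, g2 = dv (dd (1, 0)) (dd (0, 1)) t1 t2 h ^ 2 + dv (dd (1, 0)) (dd (0, 1)) e1 e2 h ^ 2 :=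
    ⟨_, rfl⟩
  have hnn : ∀ p, 0 ≤ g2.1 p := by
    intro p
    rw [hg2]
    change 0 ≤ (dv (dd (1, 0)) (dd (0, 1)) t1 t2 h).1 _ ^ 2 + (dv (dd (1, 0)) (dd (0, 1)) e1 e2 h).1 _ ^ 2
    positivity
  have hz : ∀ p, g2.1 p = 0 := by
    by_contra hcon
    push Not at hcon
    obtain ⟨p, hp⟩ := hcon
    have hpos : ∀ p, 0 < (res (nz_le g2) g2).1 p := by
      intro p
      refine lt_of_le_of_ne ?_ (Ne.symm (nz_ne g2 p))
      rw [res_val]
      exact hnn _
    obtain ⟨g, hg, hg0⟩ := Sm.sqrt _ hpos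
    obtain ⟨gi, hgi⟩ := (Sm.unit g fun p => (hg0 p).ne').exists_right_inv
    have key := grad_rel (D1 := dd (1, 0)) (D2 := dd (0, 1)) (fun x => dd_comm _ _ x)
      (fun x hx => Sm.tor 2 x (by norm_num) (by exact_mod_cast hx))
      (f := fun i => res (nz_le g2) (f i)) (τ := fun i => res (nz_le g2) (τ i))
      (ε := fun i => res (nz_le g2) (ε i)) (ν := fun i => res (nz_le g2) (ν i))
      (c := fun i => res (nz_le g2) (c i)) (t1 := res (nz_le g2) t1) (t2 := res (nz_le g2) t2)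
      (e1 := res (nz_le g2) e1) (e2 := res (nz_le g2) e2) (A := res (nz_le g2) A) (Ai := res (nz_le g2) Ai)
      (h := res (nz_le g2) h) (g := g) (gi := gi) (a := res (nz_le g2) a) (b := res (nz_le g2) b)
      (fun i => by rw [hτ, map_add, map_mul, map_mul, dd_res, dd_res])
      (fun i => by rw [hε, map_add, map_mul, map_mul, dd_res, dd_res])
      (ho.map _) (by rw [← map_mul, ← map_mul, ← map_sub, ← map_mul, hA, map_one])
      (by rw [← map_mul, hAi, map_one])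
      (fun i => by rw [LR_res, hh, map_mul])
      (by
        have k := congrArg (res (nz_le g2)) hg2
        rw [map_add, map_pow, map_pow] at k
        rw [hg, dv_res, dv_res, k]) hgi
      (by rw [dd_res, a1, map_zero]) (by rw [dd_res, a2, map_zero])
      (by rw [dd_res, b1, map_zero]) (by rw [dd_res, b2, map_zero])
      (fun i => by rw [dd_res, c1, map_zero]) (fun i => by rw [dd_res, c2, map_zero])
      (fun i => by rw [LR_res, LR_res, h2, map_add, map_mul, map_mul, map_sub])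
    obtain ⟨x1, x2, y1, y2, α, l, σ, κ, μ, q, hr⟩ := key
    exact no_grad ⟨p, mem_nz g2 p hp⟩ a0 b0 (fun p => by rw [res_val]; exact ha _)
      (fun p => by rw [res_val]; exact hb _) hr fun p => (hg0 p).ne'
  refine D_of_TE hA (Sm.ext' fun p => ?_) (Sm.ext' fun p => ?_)
  · have k := hz p
    rw [hg2] at k
    change (dv (dd (1, 0)) (dd (0, 1)) t1 t2 h).1 p ^ 2 + (dv (dd (1, 0)) (dd (0, 1)) e1 e2 h).1 p ^ 2 = 0 at k
    have k2 : (dv (dd (1, 0)) (dd (0, 1)) t1 t2 h).1 p ^ 2 = 0 := by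
      nlinarith [sq_nonneg ((dv (dd (1, 0)) (dd (0, 1)) t1 t2 h).1 p),
        sq_nonneg ((dv (dd (1, 0)) (dd (0, 1)) e1 e2 h).1 p)]
    exact pow_eq_zero_iff (n := 2) (by norm_num) |>.1 k2
  · have k := hz p
    rw [hg2] at k
    change (dv (dd (1, 0)) (dd (0, 1)) t1 t2 h).1 p ^ 2 + (dv (dd (1, 0)) (dd (0, 1)) e1 e2 h).1 p ^ 2 = 0 at k
    have k2 : (dv (dd (1, 0)) (dd (0, 1)) e1 e2 h).1 p ^ 2 = 0 := by
      nlinarith [sq_nonneg ((dv (dd (1, 0)) (dd (0, 1)) t1 t2 h).1 p),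
        sq_nonneg ((dv (dd (1, 0)) (dd (0, 1)) e1 e2 h).1 p)]
    exact pow_eq_zero_iff (n := 2) (by norm_num) |>.1 k2

end Pool.Agent.Helper99.TT
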