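import Pool.Agent.Helper99.TT.Defs

/-!
# Project TT: the case `σ = 0`, `3 l + μ ≠ 0` (pure algebra): data of a surface of revolution
-/

set_option autoImplicit false

namespace Pool.Agent.Helper99.TT

/-- The equations of the meridian. -/
structure Mer {R : Type*} [CommRing R] (T : Derivation ℤ R R) (l κ μ g q a b r : R) : Prop where
  Ta : T a = 0
  Tb : T b = 0
  Tl : T l = g - κ * (l - μ)
  Tm : T μ = κ * (l - μ)
  Tk : T κ = -(κ ^ 2) - l * μ
  Tg : T g = (l + μ) * (l ^ 2 + μ ^ 2) + a * (l + μ) + q - κ * g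
  Tq : T q = g * (3 * l + μ) * l
  Tw : T (g * (3 * l + μ)) = -(q * l) - b
  c2 : g * (3 * l + μ) * κ + q * μ + b = 0
  rr : r ^ 2 * (κ ^ 2 + μ ^ 2) = 1
  Tr : T r = κ * r

theorem mid {R : Type*} [CommRing R] {T E : Derivation ℤ R R} {α l κ μ g q a b : R}
    (d : Rel T E α l 0 κ μ g q a b) (hg : IsUnit g) (hw : IsUnit (3 * l + μ))
    (tor : ∀ (n : ℕ) (x : R), n ≠ 0 → (n : R) * x = 0 → x = 0) (r : R)
    (hr : r ^ 2 * (κ ^ 2 + μ ^ 2) = 1) : Mer T l κ μ g q a b r := by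
  have hα : α = 0 := by
    have k := d.Tv
    simp only [mul_zero, map_zero] at k
    have k2 : g * (3 * l + μ) * α = 0 := by linear_combination k
    exact ((hg.mul hw).mul_right_eq_zero).1 k2
  have Tm : T μ = κ * (l - μ) := by
    have k := d.cod2
    rw [map_zero] at k
    linear_combination k
  have Tl : T l = g - κ * (l - μ) := by linear_combination d.Th - Tm
  have Tk : T κ = -(κ ^ 2) - l * μ := by
    have k := d.gauss
    rw [hα, map_zero] at k
    linear_combination k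
  have m1 : T 1 = 0 := T.map_one_eq_zero
  have Tr : T r = κ * r := by
    have k : T (r ^ 2 * (κ ^ 2 + μ ^ 2)) = 0 := by rw [hr, m1]
    simp only [map_add, Derivation.leibniz, Derivation.leibniz_pow, smul_eq_mul, nsmul_eq_mul, Tk, Tm] at k
    push_cast at k
    have k2 : ((2 : ℕ) : R) * (T r - κ * r) = 0 := by
      push_cast
      linear_combination r * k - 2 * (T r - κ * r) * hr
    linear_combination tor 2 _ (by norm_num) k2
  refine ⟨d.Ta, d.Tb, Tl, Tm, Tk, ?_, ?_, ?_, ?_, hr, Tr⟩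
  · have k := d.Tg
    linear_combination k
  · have k := d.Tq
    linear_combination k
  · have k := d.Tw
    linear_combination k
  · have k := d.Ev
    simp only [mul_zero, map_zero] at k
    linear_combination k

section

variable {R : Type*} [CommRing R] {T : Derivation ℤ R R} {l κ μ g q a b r : R}

/-- Components of `L f`, `L² f` in the meridian half plane, and their derivatives. -/
def P0 (l μ r : R) : R := (l + μ) * (μ * r)
def Q0 (l κ μ r : R) : R := -((l + μ) * (κ * r))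
def P0' (l κ μ g r : R) : R := g * (μ * r) + (l + μ) * (l * (κ * r))
def Q0' (l κ μ g r : R) : R := -(g * (κ * r)) + (l + μ) * (l * (μ * r))
def P1 (l κ μ g q a r : R) : R := -((a * (l + μ) + q) * (μ * r)) - g * (3 * l + μ) * (κ * r)
def Q1 (l κ μ g q a r : R) : R := (a * (l + μ) + q) * (κ * r) - g * (3 * l + μ) * (μ * r)
def P1' (l κ μ g a b r : R) : R := -(a * P0' l κ μ g r) + b * (κ * r)
def Q1' (l κ μ g a b r : R) : R := -(a * Q0' l κ μ g r) + b * (μ * r)

theorem Mer.kr (m : Mer T l κ μ g q a b r) : T (κ * r) = -(l * (μ * r)) := by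
  rw [Derivation.leibniz, m.Tk, m.Tr]
  simp only [smul_eq_mul]
  ring

theorem Mer.mr (m : Mer T l κ μ g q a b r) : T (μ * r) = l * (κ * r) := by
  rw [Derivation.leibniz, m.Tm, m.Tr]
  simp only [smul_eq_mul]
  ring

theorem Mer.P0 (m : Mer T l κ μ g q a b r) : T (P0 l μ r) = P0' l κ μ g r := by
  unfold TT.P0 P0'
  rw [Derivation.leibniz, m.mr, map_add, m.Tl, m.Tm]
  simp only [smul_eq_mul]
  ring

theorem Mer.Q0 (m : Mer T l κ μ g q a b r) : T (Q0 l κ μ r) = Q0' l κ μ g r := by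
  unfold TT.Q0 Q0'
  rw [map_neg, Derivation.leibniz, m.kr, map_add, m.Tl, m.Tm]
  simp only [smul_eq_mul]
  ring

theorem Mer.P0' (m : Mer T l κ μ g q a b r) : T (P0' l κ μ g r) =
    -TT.P1 l κ μ g q a r - κ * TT.P0' l κ μ g r + TT.P0 l μ r * (κ ^ 2 + μ ^ 2) := by
  unfold TT.P0' TT.P1 TT.P0
  rw [map_add, Derivation.leibniz, m.mr, Derivation.leibniz T (l + μ), map_add, Derivation.leibniz T l, m.kr,
    m.Tl, m.Tm, m.Tg]
  simp only [smul_eq_mul]
  ring

theorem Mer.Q0' (m : Mer T l κ μ g q a b r) : T (TT.Q0' l κ μ g r) =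
    -TT.Q1 l κ μ g q a r - κ * TT.Q0' l κ μ g r := by
  unfold TT.Q0' TT.Q1
  rw [map_add, map_neg, Derivation.leibniz, m.kr, Derivation.leibniz T (l + μ), map_add,
    Derivation.leibniz T l, m.mr, m.Tl, m.Tm, m.Tg]
  simp only [smul_eq_mul]
  ring

theorem Mer.P1 (m : Mer T l κ μ g q a b r) : T (TT.P1 l κ μ g q a r) = TT.P1' l κ μ g a b r := by
  unfold TT.P1 TT.P1' TT.P0'
  rw [map_sub, map_neg, Derivation.leibniz, m.mr, map_add, Derivation.leibniz T a, m.Ta, map_add, m.Tl, m.Tm, m.Tq,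
    Derivation.leibniz T (g * (3 * l + μ)), m.kr, m.Tw]
  simp only [smul_eq_mul]
  ring

theorem Mer.Q1 (m : Mer T l κ μ g q a b r) : T (TT.Q1 l κ μ g q a r) = TT.Q1' l κ μ g a b r := by
  unfold TT.Q1 TT.Q1' TT.Q0'
  rw [map_sub, Derivation.leibniz, m.kr, map_add, Derivation.leibniz T a, m.Ta, map_add, m.Tl, m.Tm, m.Tq,
    Derivation.leibniz T (g * (3 * l + μ)), m.mr, m.Tw]
  simp only [smul_eq_mul]
  ring

theorem Mer.P1' (m : Mer T l κ μ g q a b r) : T (TT.P1' l κ μ g a b r) =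
    -(-(a * TT.P1 l κ μ g q a r) + b * TT.P0 l μ r) - κ * TT.P1' l κ μ g a b r +
      TT.P1 l κ μ g q a r * (κ ^ 2 + μ ^ 2) := by
  have k := m.P0'
  unfold TT.P1'
  rw [map_add, map_neg, Derivation.leibniz, k, m.Ta, Derivation.leibniz T b, m.kr, m.Tb]
  unfold TT.P0' TT.P1 TT.P0
  simp only [smul_eq_mul]
  linear_combination (κ ^ 2 + μ ^ 2) * r * m.c2

theorem Mer.Q1' (m : Mer T l κ μ g q a b r) : T (TT.Q1' l κ μ g a b r) =
    -(-(a * TT.Q1 l κ μ g q a r) + b * TT.Q0 l κ μ r) - κ * TT.Q1' l κ μ g a b r := by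
  have k := m.Q0'
  unfold TT.Q1'
  rw [map_add, map_neg, Derivation.leibniz, k, m.Ta, Derivation.leibniz T b, m.mr, m.Tb]
  unfold TT.Q0' TT.Q1 TT.Q0
  simp only [smul_eq_mul]
  ring

end

end Pool.Agent.Helper99.TT
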