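import Pool.Agent.Helper99.TT.Curve
import Pool.Agent.Helper99.TT.Mid
import Pool.Agent.Helper99.TT.DataH

/-!
# Project TT: the case of a surface of revolution is impossible when `g ≠ 0`
-/

set_option autoImplicit false

namespace Pool.Agent.Helper99.TT

open TopologicalSpace Set MeasureTheory

private theorem aux99 {A B C k r m : ℝ} (hr : r ≠ 0) (h : r ^ 2 * (k ^ 2 + m ^ 2) = 1) :
    -A - k * B + C * (k ^ 2 + m ^ 2) = -A - k * r / r * B + C / r ^ 2 := by
  have h1 : C / r ^ 2 = C * (k ^ 2 + m ^ 2) := by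
    rw [div_eq_iff (pow_ne_zero 2 hr)]
    linear_combination (-C) * h
  rw [h1, mul_div_assoc, div_self hr, mul_one]

private theorem aux99' {A B k r : ℝ} (hr : r ≠ 0) :
    -A - k * B = -A - k * r / r * B := by
  rw [mul_div_assoc, div_self hr, mul_one]

/-- The restriction of a function to the curve. -/
private noncomputable def pb99 {W : Opens (ℝ × ℝ)} (γ : ℝ → ℝ × ℝ) (u : Sm W) : ℝ → ℝ :=
  fun s => ext W u.1 (γ s)

theorem ode {W : Opens (ℝ × ℝ)} (t1 t2 : Sm W) {l κ μ g q a b r : Sm W} (a0 b0 : ℝ)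
    (ha : ∀ p, a.1 p = a0) (hb : ∀ p, b.1 p = b0)
    (m : Mer (dv (dd (1, 0)) (dd (0, 1)) t1 t2) l κ μ g q a b r) (hr : ∀ p, 0 < r.1 p) (p : W) :
    g.1 p = 0 := by
  obtain ⟨γ, ε, hε, h0, hW, hγ⟩ := curve t1 t2 p
  set T := dv (dd (1, 0)) (dd (0, 1)) t1 t2 with hT
  have hd : ∀ (u : Sm W), ∀ s ∈ Ioo (-ε) ε, HasDerivAt (pb99 γ u) (pb99 γ (T u) s) s := hγ
  have h0m : (0 : ℝ) ∈ Ioo (-ε) ε := ⟨by linarith, hε⟩
  have pv : ∀ (u : Sm W) (s : ℝ) (hs : s ∈ Ioo (-ε) ε), pb99 γ u s = u.1 ⟨γ s, hW s hs⟩ :=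
    fun u s hs => ext_of _ (hW s hs)
  -- the height
  have hcont : ContinuousOn (pb99 γ (μ * r)) (Ioo (-ε) ε) := fun s hs =>
    (hd _ s hs).continuousAt.continuousWithinAt
  obtain ⟨z, hz⟩ : ∃ z : ℝ → ℝ, ∀ s ∈ Ioo (-ε) ε, HasDerivAt z (pb99 γ (μ * r) s) s := by
    refine ⟨fun s => ∫ x in (0 : ℝ)..s, pb99 γ (μ * r) x, fun s hs => ?_⟩
    refine intervalIntegral.integral_hasDerivAt_right ?_ ?_ (hd _ s hs).continuousAt
    · apply ContinuousOn.intervalIntegrable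
      refine hcont.mono ?_
      exact (ordConnected_Ioo.uIcc_subset h0m hs)
    · exact hcont.stronglyMeasurableAtFilter isOpen_Ioo s hs
  let pp : ℕ → Sm W := fun n => match n with
    | 0 => P0 l μ r
    | 1 => P1 l κ μ g q a r
    | _ => -(a * P1 l κ μ g q a r) + b * P0 l μ r
  let qq : ℕ → Sm W := fun n => match n with
    | 0 => Q0 l κ μ r
    | 1 => Q1 l κ μ g q a r
    | _ => -(a * Q1 l κ μ g q a r) + b * Q0 l κ μ r
  let pp1 : ℕ → Sm W := fun n => match n with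
    | 0 => P0' l κ μ g r
    | _ => P1' l κ μ g a b r
  let qq1 : ℕ → Sm W := fun n => match n with
    | 0 => Q0' l κ μ g r
    | _ => Q1' l κ μ g a b r
  have D : Pool.Agent.Helper44.FT.Data 1 ![b0, -a0] (Ioo (-ε) ε) (pb99 γ r) z (pb99 γ (κ * r))
      (pb99 γ (μ * r)) (pb99 γ l) (pb99 γ (-(l + μ))) (fun n => pb99 γ (pp n)) (fun n => pb99 γ (qq n))
      (fun n => pb99 γ (pp1 n)) (fun n => pb99 γ (qq1 n)) := by
    constructor
    · exact isOpen_Ioo
    · exact isPreconnected_Ioo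
    · intro s hs
      rw [pv _ s hs]
      exact hr _
    · intro s hs
      have := hd r s hs
      rwa [m.Tr] at this
    · exact hz
    · intro s hs
      rw [pv _ s hs, pv _ s hs]
      have k := congrArg (fun x : Sm W => x.1 ⟨γ s, hW s hs⟩) m.rr
      change (r.1 _) ^ 2 * (κ.1 _ ^ 2 + μ.1 _ ^ 2) = 1 at k
      change (κ.1 _ * r.1 _) ^ 2 + (μ.1 _ * r.1 _) ^ 2 = 1
      linear_combination k
    · intro s hs
      have := hd (κ * r) s hs
      rw [m.kr] at this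
      rw [pv _ s hs] at this ⊢
      rw [pv _ s hs]
      exact this
    · intro s hs
      have := hd (μ * r) s hs
      rw [m.mr] at this
      rw [pv _ s hs] at this ⊢
      rw [pv _ s hs]
      exact this
    · intro s hs
      rw [pv _ s hs, pv _ s hs, pv _ s hs, pv _ s hs]
      have k := (hr ⟨γ s, hW s hs⟩).ne'
      change -(l.1 _ + μ.1 _) = -(l.1 _ + μ.1 _ * r.1 _ / r.1 _)
      rw [mul_div_assoc, div_self k, mul_one]
    · intro s hs
      rw [pv _ s hs, pv _ s hs]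
      rw [pv _ s hs]
      change (l.1 _ + μ.1 _) * (μ.1 _ * r.1 _) = -(-(l.1 _ + μ.1 _) * (μ.1 _ * r.1 _))
      ring
    · intro s hs
      rw [pv _ s hs, pv _ s hs]
      rw [pv _ s hs]
      change -((l.1 _ + μ.1 _) * (κ.1 _ * r.1 _)) = (-(l.1 _ + μ.1 _) * (κ.1 _ * r.1 _))
      ring
    · intro n hn s hs
      interval_cases n
      · have := hd (pp 0) s hs
        change HasDerivAt _ (pb99 γ (T (P0 l μ r)) s) s at this
        rwa [m.P0] at this
      · have := hd (pp 1) s hs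
        change HasDerivAt _ (pb99 γ (T (P1 l κ μ g q a r)) s) s at this
        rwa [m.P1] at this
    · intro n hn s hs
      interval_cases n
      · have := hd (qq 0) s hs
        change HasDerivAt _ (pb99 γ (T (Q0 l κ μ r)) s) s at this
        rwa [m.Q0] at this
      · have := hd (qq 1) s hs
        change HasDerivAt _ (pb99 γ (T (Q1 l κ μ g q a r)) s) s at this
        rwa [m.Q1] at this
    · intro n hn s hs
      have k := (hr ⟨γ s, hW s hs⟩).ne'
      have k2 := congrArg (fun x : Sm W => x.1 ⟨γ s, hW s hs⟩) m.rr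
      change (r.1 _) ^ 2 * (κ.1 _ ^ 2 + μ.1 _ ^ 2) = 1 at k2
      interval_cases n
      · have := hd (pp1 0) s hs
        change HasDerivAt _ (pb99 γ (T (P0' l κ μ g r)) s) s at this
        rw [m.P0'] at this
        refine this.congr_deriv ?_
        rw [pv _ s hs, pv _ s hs, pv _ s hs, pv _ s hs, pv _ s hs, pv _ s hs]
        exact aux99 k k2
      · have := hd (pp1 1) s hs
        change HasDerivAt _ (pb99 γ (T (P1' l κ μ g a b r)) s) s at this
        rw [m.P1'] at this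
        refine this.congr_deriv ?_
        rw [pv _ s hs, pv _ s hs, pv _ s hs, pv _ s hs, pv _ s hs, pv _ s hs]
        exact aux99 k k2
    · intro n hn s hs
      have k := (hr ⟨γ s, hW s hs⟩).ne'
      interval_cases n
      · have := hd (qq1 0) s hs
        change HasDerivAt _ (pb99 γ (T (Q0' l κ μ g r)) s) s at this
        rw [m.Q0'] at this
        refine this.congr_deriv ?_
        rw [pv _ s hs, pv _ s hs, pv _ s hs, pv _ s hs, pv _ s hs]
        exact aux99' k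
      · have := hd (qq1 1) s hs
        change HasDerivAt _ (pb99 γ (T (Q1' l κ μ g a b r)) s) s at this
        rw [m.Q1'] at this
        refine this.congr_deriv ?_
        rw [pv _ s hs, pv _ s hs, pv _ s hs, pv _ s hs, pv _ s hs]
        exact aux99' k
    · intro s hs
      rw [Fin.sum_univ_two]
      change pb99 γ (pp 2) s = b0 * pb99 γ (pp 0) s + -a0 * pb99 γ (pp 1) s
      rw [pv _ s hs, pv _ s hs, pv _ s hs, ← ha ⟨γ s, hW s hs⟩, ← hb ⟨γ s, hW s hs⟩]
      change -(a.1 _ * (P1 l κ μ g q a r).1 _) + b.1 _ * (P0 l μ r).1 _ =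
        b.1 _ * (P0 l μ r).1 _ + -a.1 _ * (P1 l κ μ g q a r).1 _
      ring
    · intro s hs
      rw [Fin.sum_univ_two]
      change pb99 γ (qq 2) s = b0 * pb99 γ (qq 0) s + -a0 * pb99 γ (qq 1) s
      rw [pv _ s hs, pv _ s hs, pv _ s hs, ← ha ⟨γ s, hW s hs⟩, ← hb ⟨γ s, hW s hs⟩]
      change -(a.1 _ * (Q1 l κ μ g q a r).1 _) + b.1 _ * (Q0 l κ μ r).1 _ =
        b.1 _ * (Q0 l κ μ r).1 _ + -a.1 _ * (Q1 l κ μ g q a r).1 _
      ring
  have h1 := data_h D h0m
  have h2 := (hd (-(l + μ)) 0 h0m).unique h1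
  rw [map_neg, map_add, m.Tl, m.Tm, pv _ 0 h0m] at h2
  have h3 : -(g.1 ⟨γ 0, hW 0 h0m⟩ - κ.1 ⟨γ 0, hW 0 h0m⟩ * (l.1 ⟨γ 0, hW 0 h0m⟩ - μ.1 ⟨γ 0, hW 0 h0m⟩) +
    κ.1 ⟨γ 0, hW 0 h0m⟩ * (l.1 ⟨γ 0, hW 0 h0m⟩ - μ.1 ⟨γ 0, hW 0 h0m⟩)) = 0 := h2
  have h4 : (⟨γ 0, hW 0 h0m⟩ : W) = p := Subtype.ext h0
  rw [h4] at h3
  linarith

end Pool.Agent.Helper99.TT
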