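import Mathlib

/-!
# Project TT: the differential ring of smooth functions on an open set of the plane
-/

set_option autoImplicit false

namespace Pool.Agent.Helper99.TT

open TopologicalSpace

/-- Smoothness exponent. -/
abbrev inf : WithTop ℕ∞ := ((⊤ : ℕ∞) : WithTop ℕ∞)

open Classical in
/-- Extension by zero. -/
noncomputable def ext (W : Opens (ℝ × ℝ)) (u : W → ℝ) : ℝ × ℝ → ℝ :=
  fun q => if h : q ∈ W then u ⟨q, h⟩ else 0

theorem ext_of {W : Opens (ℝ × ℝ)} (u : W → ℝ) {q : ℝ × ℝ} (h : q ∈ W) : ext W u q = u ⟨q, h⟩ := by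
  simp [ext, h]

theorem ext_coe {W : Opens (ℝ × ℝ)} (u : W → ℝ) (p : W) : ext W u p = u p := ext_of u p.2

theorem cd_congr {W : Opens (ℝ × ℝ)} {φ ψ : ℝ × ℝ → ℝ} (h : ContDiffOn ℝ inf φ W)
    (e : ∀ q ∈ W, ψ q = φ q) : ContDiffOn ℝ inf ψ W := h.congr e

/-- The ring of smooth functions on `W`. -/
noncomputable def Sm (W : Opens (ℝ × ℝ)) : Subring (W → ℝ) where
  carrier := {u | ContDiffOn ℝ inf (ext W u) W}
  mul_mem' {u v} hu hv := cd_congr (ContDiffOn.mul hu hv) fun q hq => by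
    simp [ext_of _ hq]
  one_mem' := cd_congr (contDiffOn_const (c := (1 : ℝ))) fun q hq => by simp [ext_of _ hq]
  add_mem' {u v} hu hv := cd_congr (ContDiffOn.add hu hv) fun q hq => by
    simp [ext_of _ hq]
  zero_mem' := cd_congr (contDiffOn_const (c := (0 : ℝ))) fun q hq => by simp [ext_of _ hq]
  neg_mem' {u} hu := cd_congr (ContDiffOn.neg hu) fun q hq => by simp [ext_of _ hq]

/-- The element of `Sm W` given by a function smooth on `W`. -/
noncomputable def Sm.mk {W : Opens (ℝ × ℝ)} (φ : ℝ × ℝ → ℝ) (h : ContDiffOn ℝ inf φ W) : Sm W :=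
  ⟨fun p => φ p, cd_congr h fun q hq => by simp [ext_of _ hq]⟩

theorem Sm.mk_val {W : Opens (ℝ × ℝ)} (φ : ℝ × ℝ → ℝ) (h : ContDiffOn ℝ inf φ W) (p : W) :
    (Sm.mk φ h).1 p = φ p := rfl

theorem Sm.ext' {W : Opens (ℝ × ℝ)} {u v : Sm W} (h : ∀ p, u.1 p = v.1 p) : u = v :=
  Subtype.ext (funext h)

theorem Sm.smooth {W : Opens (ℝ × ℝ)} (u : Sm W) : ContDiffOn ℝ inf (ext W u.1) W := u.2

theorem Sm.diffAt {W : Opens (ℝ × ℝ)} (u : Sm W) (p : W) : DifferentiableAt ℝ (ext W u.1) p :=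
  ((u.2.differentiableOn (by simp)) p p.2).differentiableAt (W.isOpen.mem_nhds p.2)

theorem fd_congr {W : Opens (ℝ × ℝ)} {φ ψ : ℝ × ℝ → ℝ} (e : ∀ q ∈ W, ψ q = φ q) (p : W) :
    fderiv ℝ ψ p = fderiv ℝ φ p := by
  apply Filter.EventuallyEq.fderiv_eq
  filter_upwards [W.isOpen.mem_nhds p.2] with q hq using e q hq

theorem fd_smooth {W : Opens (ℝ × ℝ)} {φ : ℝ × ℝ → ℝ} (h : ContDiffOn ℝ inf φ W) (v : ℝ × ℝ) :
    ContDiffOn ℝ inf (fun q => fderiv ℝ φ q v) W :=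
  (h.fderiv_of_isOpen W.isOpen (by simp)).clm_apply contDiffOn_const

/-- The directional derivative. -/
noncomputable def dd {W : Opens (ℝ × ℝ)} (v : ℝ × ℝ) : Derivation ℤ (Sm W) (Sm W) :=
  Derivation.mk'
    (AddMonoidHom.toIntLinearMap
      { toFun := fun u => Sm.mk (fun q => fderiv ℝ (ext W u.1) q v) (fd_smooth u.2 v)
        map_zero' := Sm.ext' fun p => by
          rw [Sm.mk_val]
          have : fderiv ℝ (ext W ((0 : Sm W)).1) p = fderiv ℝ (fun _ : ℝ × ℝ => (0 : ℝ)) p :=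
            fd_congr (φ := fun _ : ℝ × ℝ => (0 : ℝ)) (fun q hq => by rw [ext_of _ hq]; rfl) p
          rw [this]; simp
        map_add' := fun x y => Sm.ext' fun p => by
          have : fderiv ℝ (ext W (x + y).1) p = fderiv ℝ (fun q => ext W x.1 q + ext W y.1 q) p :=
            fd_congr (fun q hq => by rw [ext_of _ hq, ext_of _ hq, ext_of _ hq]; rfl) p
          rw [Sm.mk_val, this, fderiv_fun_add (Sm.diffAt x p) (Sm.diffAt y p)]
          rfl })
    (fun x y => Sm.ext' fun p => by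
      have : fderiv ℝ (ext W (x * y).1) p = fderiv ℝ (fun q => ext W x.1 q * ext W y.1 q) p :=
            fd_congr (fun q hq => by rw [ext_of _ hq, ext_of _ hq, ext_of _ hq]; rfl) p
      change fderiv ℝ (ext W (x * y).1) p v = _
      rw [this, fderiv_fun_mul (Sm.diffAt x p) (Sm.diffAt y p)]
      simp only [add_apply, smul_apply, ext_coe]
      rfl)

theorem dd_val {W : Opens (ℝ × ℝ)} (v : ℝ × ℝ) (u : Sm W) (p : W) :
    (dd v u).1 p = fderiv ℝ (ext W u.1) p v := rfl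

theorem dd_mk {W : Opens (ℝ × ℝ)} (v : ℝ × ℝ) (φ : ℝ × ℝ → ℝ) (h : ContDiffOn ℝ inf φ W) :
    dd v (Sm.mk φ h) = Sm.mk (fun q => fderiv ℝ φ q v) (fd_smooth h v) :=
  Sm.ext' fun p => by
    rw [dd_val, Sm.mk_val]
    rw [fd_congr (φ := φ) (fun q hq => by rw [ext_of _ hq]; rfl) p]

theorem dd_comm {W : Opens (ℝ × ℝ)} (v w : ℝ × ℝ) (u : Sm W) : dd v (dd w u) = dd w (dd v u) := by
  apply Sm.ext'
  intro p
  rw [dd_val, dd_val]
  have h1 : fderiv ℝ (ext W (dd w u).1) p = fderiv ℝ (fun q => fderiv ℝ (ext W u.1) q w) p :=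
    fd_congr (fun q hq => by rw [ext_of _ hq]; rfl) p
  have h2 : fderiv ℝ (ext W (dd v u).1) p = fderiv ℝ (fun q => fderiv ℝ (ext W u.1) q v) p :=
    fd_congr (fun q hq => by rw [ext_of _ hq]; rfl) p
  rw [h1, h2]
  have hd : DifferentiableAt ℝ (fderiv ℝ (ext W u.1)) p :=
    (((u.2.fderiv_of_isOpen W.isOpen (m := inf) (by simp)).differentiableOn (by simp)) p
      p.2).differentiableAt (W.isOpen.mem_nhds p.2)
  rw [fderiv_clm_apply hd (differentiableAt_const _), fderiv_clm_apply hd (differentiableAt_const _)]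
  have hsym : IsSymmSndFDerivAt ℝ (ext W u.1) p :=
    (u.2.contDiffAt (W.isOpen.mem_nhds p.2)).isSymmSndFDerivAt (by
      simp only [minSmoothness_of_isRCLikeNormedField]
      exact WithTop.coe_le_coe.2 le_top)
  simp only [fderiv_fun_const, Pi.zero_apply, ContinuousLinearMap.comp_zero, zero_add,
    ContinuousLinearMap.flip_apply]
  exact hsym v w

theorem Sm.tor {W : Opens (ℝ × ℝ)} (n : ℕ) (x : Sm W) (hn : n ≠ 0) (h : (n : Sm W) * x = 0) : x = 0 := by
  apply Sm.ext'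
  intro p
  have h1 : ((n : Sm W) * x).1 p = (0 : Sm W).1 p := by rw [h]
  have h2 : (n : ℝ) * x.1 p = 0 := by
    have e : ((n : Sm W)).1 p = (n : ℝ) := by
      rw [SubringClass.coe_natCast]; rfl
    rw [← e]
    exact h1
  have h3 : (n : ℝ) ≠ 0 := by exact_mod_cast hn
  rcases mul_eq_zero.1 h2 with h4 | h4
  · exact absurd h4 h3
  · exact h4

theorem Sm.unit {W : Opens (ℝ × ℝ)} (x : Sm W) (h : ∀ p, x.1 p ≠ 0) : IsUnit x := by
  have hs : ContDiffOn ℝ inf (fun q => (ext W x.1 q)⁻¹) W :=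
    x.2.inv fun q hq => by rw [ext_of _ hq]; exact h _
  refine IsUnit.of_mul_eq_one (Sm.mk _ hs) (Sm.ext' fun p => ?_)
  change x.1 p * (ext W x.1 p)⁻¹ = 1
  rw [ext_coe]
  exact mul_inv_cancel₀ (h p)

theorem Sm.sqrt {W : Opens (ℝ × ℝ)} (x : Sm W) (h : ∀ p, 0 < x.1 p) :
    ∃ s : Sm W, s * s = x ∧ ∀ p, 0 < s.1 p := by
  have hs : ContDiffOn ℝ inf (fun q => Real.sqrt (ext W x.1 q)) W :=
    x.2.sqrt fun q hq => by rw [ext_of _ hq]; exact (h _).ne'
  refine ⟨Sm.mk _ hs, Sm.ext' fun p => ?_, fun p => ?_⟩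
  · change Real.sqrt (ext W x.1 p) * Real.sqrt (ext W x.1 p) = x.1 p
    rw [ext_coe]
    exact Real.mul_self_sqrt (h p).le
  · change 0 < Real.sqrt (ext W x.1 p)
    rw [ext_coe]
    exact Real.sqrt_pos.2 (h p)

/-- Restriction. -/
noncomputable def res {V W : Opens (ℝ × ℝ)} (h : V ≤ W) : Sm W →+* Sm V where
  toFun u := Sm.mk (ext W u.1) (u.2.mono h)
  map_one' := Sm.ext' fun p => by rw [Sm.mk_val, ext_of _ (h p.2)]; rfl
  map_zero' := Sm.ext' fun p => by rw [Sm.mk_val, ext_of _ (h p.2)]; rfl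
  map_mul' x y := Sm.ext' fun p => by
    rw [Sm.mk_val, ext_of _ (h p.2)]
    change _ = ext W x.1 p * ext W y.1 p
    rw [ext_of _ (h p.2), ext_of _ (h p.2)]; rfl
  map_add' x y := Sm.ext' fun p => by
    rw [Sm.mk_val, ext_of _ (h p.2)]
    change _ = ext W x.1 p + ext W y.1 p
    rw [ext_of _ (h p.2), ext_of _ (h p.2)]; rfl

theorem res_val {V W : Opens (ℝ × ℝ)} (h : V ≤ W) (u : Sm W) (p : V) :
    (res h u).1 p = u.1 ⟨p, h p.2⟩ := by
  change ext W u.1 p = _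
  rw [ext_of _ (h p.2)]

theorem dd_res {V W : Opens (ℝ × ℝ)} (h : V ≤ W) (v : ℝ × ℝ) (u : Sm W) :
    dd v (res h u) = res h (dd v u) := by
  apply Sm.ext'
  intro p
  rw [res_val, dd_val, dd_val]
  rw [fd_congr (φ := ext W u.1) (fun q hq => by
    rw [ext_of _ hq, res_val, ext_of _ (h hq)]) p]

theorem Sm.const {W : Opens (ℝ × ℝ)} (hW : IsPreconnected (W : Set (ℝ × ℝ))) (u : Sm W)
    (h1 : dd (1, 0) u = 0) (h2 : dd (0, 1) u = 0) (p q : W) : u.1 p = u.1 q := by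
  have h3 : ∀ x ∈ (W : Set (ℝ × ℝ)), fderiv ℝ (ext W u.1) x = 0 := by
    intro x hx
    have a1 : fderiv ℝ (ext W u.1) x (1, 0) = 0 := by
      have := congrArg (fun s : Sm W => s.1 ⟨x, hx⟩) h1
      exact this
    have a2 : fderiv ℝ (ext W u.1) x (0, 1) = 0 := by
      have := congrArg (fun s : Sm W => s.1 ⟨x, hx⟩) h2
      exact this
    ext
    · simpa using a1
    · simpa using a2
  have hd : DifferentiableOn ℝ (ext W u.1) W := u.2.differentiableOn (by simp)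
  have h5 := W.isOpen.is_const_of_fderiv_eq_zero hW hd (fun x hx => h3 x hx) p.2 q.2
  rwa [ext_coe, ext_coe] at h5

end Pool.Agent.Helper99.TT
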