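import Pool.Agent.Helper44.FT.Lap

/-!
# Project TT: surfaces of type at most two satisfy a quadratic equation
-/

set_option autoImplicit false

namespace Pool.Agent.Helper99.TT

open Pool.Agent.Helper44.FT

theorem two_type {U : Set (ℝ × ℝ)} {f : ℝ × ℝ → EuclideanSpace ℝ (Fin 3)} {E F G : ℝ × ℝ → ℝ}
    {L : (ℝ × ℝ → EuclideanSpace ℝ (Fin 3)) → ℝ × ℝ → EuclideanSpace ℝ (Fin 3)}
    (S : Sf U f E F G L) (c : EuclideanSpace ℝ (Fin 3)) (x y : ℝ × ℝ → EuclideanSpace ℝ (Fin 3))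
    (lam mu : ℝ) (hx : ContDiffOn ℝ ((⊤ : ℕ∞) : WithTop ℕ∞) x U)
    (hy : ContDiffOn ℝ ((⊤ : ℕ∞) : WithTop ℕ∞) y U) (hf : ∀ p ∈ U, f p = c + x p + y p)
    (hLx : ∀ p ∈ U, L x p = lam • x p) (hLy : ∀ p ∈ U, L y p = mu • y p) :
    ∀ p ∈ U, L (L f) p = (lam + mu) • L f p + (-(lam * mu)) • (f p - c) := by
  -- the Laplacian of a constant
  have hc : ∀ p, L (fun _ => c) p = 0 := by
    intro p
    rw [S.hL]
    simp
  -- linear combinations
  have key : ∀ a b r : ℝ, ∀ p ∈ U, L (fun q => r • c + a • x q + b • y q) p =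
      (a * lam) • x p + (b * mu) • y p := by
    intro a b r p hp
    have k := lap_sum S (m := 3) (fun i => ![fun _ => c, x, y] i) ![r, a, b] (by
      intro i
      fin_cases i
      · exact contDiffOn_const
      · exact hx
      · exact hy) p hp
    rw [Fin.sum_univ_three] at k
    simp only [Fin.sum_univ_three] at k
    have e : (fun q => r • c + a • x q + b • y q) =
        fun q => (![r, a, b] : Fin 3 → ℝ) 0 • (![fun _ => c, x, y] : Fin 3 → ℝ × ℝ → EuclideanSpace ℝ (Fin 3)) 0 q +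
          (![r, a, b] : Fin 3 → ℝ) 1 • (![fun _ => c, x, y] : Fin 3 → ℝ × ℝ → EuclideanSpace ℝ (Fin 3)) 1 q +
          (![r, a, b] : Fin 3 → ℝ) 2 • (![fun _ => c, x, y] : Fin 3 → ℝ × ℝ → EuclideanSpace ℝ (Fin 3)) 2 q := by
      funext q
      simp
    rw [e, k]
    simp only [Matrix.cons_val_zero, Matrix.cons_val_one, Matrix.cons_val]
    rw [hc, hLx p hp, hLy p hp, smul_zero, zero_add, smul_smul, smul_smul]
  have hLf : ∀ p ∈ U, L f p = lam • x p + mu • y p := by
    intro p hp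
    have e : ∀ q ∈ U, f q = (fun q => (1 : ℝ) • c + (1 : ℝ) • x q + (1 : ℝ) • y q) q := by
      intro q hq
      simp only [one_smul]
      exact hf q hq
    rw [lap_congr S e p hp, key 1 1 1 p hp, one_mul, one_mul]
  intro p hp
  have e : ∀ q ∈ U, L f q = (fun q => (0 : ℝ) • c + lam • x q + mu • y q) q := by
    intro q hq
    simp only [zero_smul, zero_add]
    exact hLf q hq
  rw [lap_congr S e p hp, key lam mu 0 p hp, hLf p hp, hf p hp]
  module

end Pool.Agent.Helper99.TT
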